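import Mathlib

/-!
# The coset tree of a free factor of rank one and the twists `x_i -> x_i t^(k_i)`
-/

set_option autoImplicit false
set_option linter.unusedSectionVars false

namespace Pool.Agent.H61.CT

variable {ι : Type} [DecidableEq ι]

/-- The free group on `t` and the `x_i`. -/
abbrev F (ι : Type) := FreeGroup (Option ι)

/-- The distinguished generator. -/
def t : F ι := FreeGroup.of none

/-- The other generators. -/
def x (i : ι) : F ι := FreeGroup.of (some i)

/-- Letters. -/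
abbrev S (ι : Type) := ι × Bool

/-- The inverse letter. -/
def iv (s : S ι) : S ι := (s.1, !s.2)

@[simp] theorem iv_iv (s : S ι) : iv (iv s) = s := by
  obtain ⟨i, b⟩ := s
  simp [iv]

/-- The group element of a letter. -/
def xl (s : S ι) : F ι := if s.2 then x s.1 else (x s.1)⁻¹

@[simp] theorem xl_iv (s : S ι) : xl (iv s) = (xl s)⁻¹ := by
  obtain ⟨i, b⟩ := s
  cases b <;> simp [iv, xl]

/-- The label at the start of a letter (the letter `x_i` is an edge from `(k i).1` to `(k i).2`). -/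
def dep (k : ι → ℤ × ℤ) (s : S ι) : ℤ := if s.2 then (k s.1).1 else (k s.1).2

/-- The label at the end of a letter. -/
def arr (k : ι → ℤ × ℤ) (s : S ι) : ℤ := if s.2 then (k s.1).2 else (k s.1).1

theorem dep_iv (k : ι → ℤ × ℤ) (s : S ι) : dep k (iv s) = arr k s := by
  obtain ⟨i, b⟩ := s
  cases b <;> simp [iv, dep, arr]

/-- The endomorphism `t -> t`, `x_i -> t^(-(k i).1) x_i t^((k i).2)`. -/
def tw (k : ι → ℤ × ℤ) : F ι →* F ι :=
  FreeGroup.lift (fun o => match o with
    | none => t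
    | some i => t ^ (-(k i).1) * x i * t ^ (k i).2)

@[simp] theorem tw_t (k : ι → ℤ × ℤ) : tw k (t : F ι) = t := by
  simp [tw, t]

@[simp] theorem tw_x (k : ι → ℤ × ℤ) (i : ι) : tw k (x i : F ι) = t ^ (-(k i).1) * x i * t ^ (k i).2 := by
  simp [tw, x]

theorem tw_xl (k : ι → ℤ × ℤ) (s : S ι) : tw k (xl s) = t ^ (-dep k s) * xl s * t ^ (arr k s) := by
  obtain ⟨i, b⟩ := s
  cases b <;> simp [xl, dep, arr, mul_assoc]

theorem hom_ext' {G : Type} [Group G] {f g : F ι →* G} (h1 : f t = g t) (h2 : ∀ i, f (x i) = g (x i)) : f = g := by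
  apply FreeGroup.ext_hom
  intro o
  cases o with
  | none => exact h1
  | some i => exact h2 i

theorem tw_tw (k l : ι → ℤ × ℤ) (g : F ι) : tw k (tw l g) = tw (k + l) g := by
  have : (tw k).comp (tw l) = tw (k + l) := by
    apply hom_ext'
    · simp
    · intro i
      simp only [MonoidHom.comp_apply, tw_x, map_mul, map_zpow, tw_t, Pi.add_apply, Prod.fst_add, Prod.snd_add]
      rw [neg_add, zpow_add, zpow_add]
      have h : (t : F ι) ^ (-(l i).1) * t ^ (-(k i).1) = t ^ (-(k i).1) * t ^ (-(l i).1) := by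
        rw [← zpow_add, ← zpow_add, add_comm]
      rw [← h]
      simp only [mul_assoc]
  exact DFunLike.congr_fun this g

theorem tw_zero (g : F ι) : tw (0 : ι → ℤ × ℤ) g = g := by
  have : tw (0 : ι → ℤ × ℤ) = MonoidHom.id (F ι) := by
    apply hom_ext'
    · simp
    · intro i
      simp
  rw [this]
  rfl

/-- The letter `s` can be put in front of the list `l` without cancellation. -/
def Ok (s : S ι) (l : List (ℤ × S ι)) : Prop :=
  match l with
  | [] => True
  | q :: _ => ¬ (q.1 = 0 ∧ q.2 = iv s)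

instance (s : S ι) (l : List (ℤ × S ι)) : Decidable (Ok s l) := by
  cases l with
  | nil => exact isTrue trivial
  | cons q l => exact inferInstanceAs (Decidable (¬ (q.1 = 0 ∧ q.2 = iv s)))

/-- Reduced lists: the list `(m_0, s_1), (m_1, s_2), ...` stands for `t^(m_0) s_1 t^(m_1) s_2 ...`. -/
def Red : List (ℤ × S ι) → Prop
  | [] => True
  | p :: l => Ok p.2 l ∧ Red l

/-- The action of `t^n`. -/
def T (n : ℤ) : List (ℤ × S ι) → List (ℤ × S ι)
  | [] => []
  | p :: l => (p.1 + n, p.2) :: l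

/-- The action of a letter. -/
def X (s : S ι) (l : List (ℤ × S ι)) : List (ℤ × S ι) := if Ok s l then (0, s) :: l else l.tail

theorem red_T (n : ℤ) (l : List (ℤ × S ι)) (h : Red l) : Red (T n l) := by
  cases l with
  | nil => exact h
  | cons p l => exact h

theorem red_X (s : S ι) (l : List (ℤ × S ι)) (h : Red l) : Red (X s l) := by
  unfold X
  split_ifs with h1
  · exact ⟨h1, h⟩
  · cases l with
    | nil => exact h
    | cons p l => exact h.2

theorem T_T (m n : ℤ) (l : List (ℤ × S ι)) : T m (T n l) = T (n + m) l := by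
  cases l with
  | nil => rfl
  | cons p l => simp [T, add_assoc]

theorem T_zero (l : List (ℤ × S ι)) : T 0 l = l := by
  cases l with
  | nil => rfl
  | cons p l => simp [T]

theorem X_X (s : S ι) (l : List (ℤ × S ι)) (h : Red l) : X (iv s) (X s l) = l := by
  unfold X
  by_cases h1 : Ok s l
  · simp only [h1, if_true]
    have : ¬ Ok (iv s) ((0, s) :: l) := by
      simp [Ok]
    simp [this]
  · simp only [h1, if_false]
    cases l with
    | nil => exact absurd trivial h1
    | cons p l =>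
      have h2 : p.1 = 0 ∧ p.2 = iv s := by
        by_contra h3
        exact h1 h3
      have h3 : Ok (iv s) l := by
        rw [← h2.2]
        exact h.1
      simp only [List.tail_cons, h3, if_true]
      rw [← h2.2, ← h2.1]

/-- Reduced lists as a type. -/
abbrev Y (ι : Type) [DecidableEq ι] := {l : List (ℤ × S ι) // Red l}

/-- `T n` as a permutation. -/
def Tp (n : ℤ) : Equiv.Perm (Y ι) where
  toFun l := ⟨T n l.1, red_T n l.1 l.2⟩
  invFun l := ⟨T (-n) l.1, red_T (-n) l.1 l.2⟩
  left_inv l := by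
    apply Subtype.ext
    simp [T_T, T_zero]
  right_inv l := by
    apply Subtype.ext
    simp [T_T, T_zero]

/-- `X s` as a permutation. -/
def Xp (s : S ι) : Equiv.Perm (Y ι) where
  toFun l := ⟨X s l.1, red_X s l.1 l.2⟩
  invFun l := ⟨X (iv s) l.1, red_X (iv s) l.1 l.2⟩
  left_inv l := by
    apply Subtype.ext
    exact X_X s l.1 l.2
  right_inv l := by
    apply Subtype.ext
    have := X_X (iv s) l.1 l.2
    rw [iv_iv] at this
    exact this

/-- The action of the free group on reduced lists. -/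
def ρ : F ι →* Equiv.Perm (Y ι) :=
  FreeGroup.lift (fun o => match o with
    | none => Tp 1
    | some i => Xp (i, true))

theorem rho_t (l : Y ι) : ((ρ t : Equiv.Perm (Y ι)) l).1 = T 1 l.1 := by
  simp [ρ, t, Tp]

theorem rho_t_zpow (n : ℤ) (l : Y ι) : ((ρ (t ^ n) : Equiv.Perm (Y ι)) l).1 = T n l.1 := by
  have h : ∀ n : ℤ, (ρ ((t : F ι) ^ n) : Equiv.Perm (Y ι)) = Tp n := by
    have h1 : (ρ (t : F ι) : Equiv.Perm (Y ι)) = Tp 1 := by
      simp [ρ, t]
    intro n
    rw [map_zpow, h1]
    have h2 : ∀ a b : ℤ, (Tp a : Equiv.Perm (Y ι)) * Tp b = Tp (a + b) := by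
      intro a b
      ext1 l
      apply Subtype.ext
      show T a (T b l.1) = T (a + b) l.1
      rw [T_T, add_comm]
    have h3 : (Tp 0 : Equiv.Perm (Y ι)) = 1 := by
      ext1 l
      apply Subtype.ext
      exact T_zero l.1
    induction n using Int.induction_on with
    | zero => simp [h3]
    | succ n ih =>
      rw [zpow_add_one, ih, h2]
    | pred n ih =>
      rw [zpow_sub_one, ih]
      have h4 : (Tp 1 : Equiv.Perm (Y ι))⁻¹ = Tp (-1) := by
        rw [inv_eq_iff_mul_eq_one, h2]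
        simpa using h3
      rw [h4, h2]
      rfl
  rw [h]
  rfl

theorem rho_xl (s : S ι) (l : Y ι) : ((ρ (xl s) : Equiv.Perm (Y ι)) l).1 = X s l.1 := by
  obtain ⟨i, b⟩ := s
  cases b with
  | true => simp [ρ, xl, x, Xp]
  | false =>
    have h1 : (ρ (x i : F ι) : Equiv.Perm (Y ι)) = Xp (i, true) := by
      simp [ρ, x]
    have h2 : (ρ (xl (i, false) : F ι) : Equiv.Perm (Y ι)) = (Xp (i, true))⁻¹ := by
      simp [xl, h1]
    rw [h2]
    rfl

/-- The base point. -/
def bs : Y ι := ⟨[], trivial⟩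

/-- The point of the tree of a group element. -/
def pt (g : F ι) : List (ℤ × S ι) := ((ρ g : Equiv.Perm (Y ι)) bs).1

theorem red_pt (g : F ι) : Red (pt g) := ((ρ g : Equiv.Perm (Y ι)) bs).2

/-- The group element of a list. -/
def ev : List (ℤ × S ι) → F ι
  | [] => 1
  | p :: l => t ^ p.1 * xl p.2 * ev l

theorem rho_mul (g h : F ι) (l : Y ι) : (ρ (g * h) : Equiv.Perm (Y ι)) l = ρ g (ρ h l) := by
  simp

theorem pt_ev (l : List (ℤ × S ι)) (h : Red l) : pt (ev l) = l := by
  induction l with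
  | nil => simp [pt, ev, bs]
  | cons p l ih =>
    have h1 := ih h.2
    unfold pt at h1 ⊢
    rw [ev, rho_mul, rho_mul, rho_t_zpow, rho_xl, h1]
    have h2 : Ok p.2 l := h.1
    simp [X, h2, T]

theorem ev_T_one (l : List (ℤ × S ι)) (n : ℤ) : ∃ q : ℤ, t ^ n * ev l = ev (T n l) * t ^ q := by
  cases l with
  | nil => exact ⟨n, by simp [ev, T]⟩
  | cons p l =>
    refine ⟨0, ?_⟩
    simp only [ev, T, zpow_zero, mul_one]
    rw [zpow_add, ← mul_assoc, ← mul_assoc]
    congr 2
    rw [← zpow_add, ← zpow_add, add_comm]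

theorem ev_X (s : S ι) (l : List (ℤ × S ι)) : xl s * ev l = ev (X s l) := by
  unfold X
  split_ifs with h
  · simp [ev]
  · cases l with
    | nil => exact absurd trivial h
    | cons p l =>
      have h2 : p.1 = 0 ∧ p.2 = iv s := by
        by_contra h3
        exact h h3
      simp [ev, h2.1, h2.2]

theorem mul_ev (g : F ι) : ∀ l : Y ι, ∃ q : ℤ, g * ev l.1 = ev ((ρ g : Equiv.Perm (Y ι)) l).1 * t ^ q := by
  have key1 : ∀ (n : ℤ) (l : Y ι), ∃ q : ℤ, (t : F ι) ^ n * ev l.1 = ev ((ρ ((t : F ι) ^ n) : Equiv.Perm (Y ι)) l).1 * t ^ q := by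
    intro n l
    rw [rho_t_zpow]
    exact ev_T_one l.1 n
  have key2 : ∀ (s : S ι) (l : Y ι), ∃ q : ℤ, xl s * ev l.1 = ev ((ρ (xl s) : Equiv.Perm (Y ι)) l).1 * t ^ q := by
    intro s l
    rw [rho_xl]
    exact ⟨0, by rw [ev_X]; simp⟩
  induction g using FreeGroup.induction_on with
  | C1 => intro l; exact ⟨0, by simp⟩
  | of o =>
    cases o with
    | none => simpa [t] using key1 1
    | some i => exact key2 (i, true)
  | inv_of o _ =>
    cases o with
    | none => simpa [t] using key1 (-1)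
    | some i => exact key2 (i, false)
  | mul g h hg hh =>
    intro l
    obtain ⟨q, hq⟩ := hh l
    obtain ⟨q', hq'⟩ := hg ((ρ h : Equiv.Perm (Y ι)) l)
    refine ⟨q' + q, ?_⟩
    rw [mul_assoc, hq, ← mul_assoc, hq', rho_mul, zpow_add, mul_assoc]

theorem exists_ev (g : F ι) : ∃ q : ℤ, g = ev (pt g) * t ^ q := by
  obtain ⟨q, hq⟩ := mul_ev g bs
  refine ⟨q, ?_⟩
  have : ev (bs : Y ι).1 = (1 : F ι) := rfl
  rw [this, mul_one] at hq
  exact hq

theorem pt_t_zpow_mul (n : ℤ) (g : F ι) : pt (t ^ n * g) = T n (pt g) := by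
  unfold pt
  rw [rho_mul, rho_t_zpow]

theorem pt_mul_t_zpow (n : ℤ) (g : F ι) : pt (g * t ^ n) = pt g := by
  unfold pt
  rw [rho_mul]
  congr 2
  apply Subtype.ext
  rw [rho_t_zpow]
  rfl

theorem pt_eq_nil {g : F ι} (h : pt g = []) : ∃ q : ℤ, g = t ^ q := by
  obtain ⟨q, hq⟩ := exists_ev g
  rw [h] at hq
  exact ⟨q, by simpa [ev] using hq⟩

end Pool.Agent.H61.CT
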