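import Mathlib
import Pool.Agent.H61.CT.A

/-!
# Labels, no cancellation, and elements fixed up to a power of `t`
-/

set_option autoImplicit false
set_option linter.unusedSectionVars false

namespace Pool.Agent.H61.CT

variable {ι : Type} [DecidableEq ι]

/-- The twist on reduced lists, started with the label `c`. -/
def sh (k : ι → ℤ × ℤ) (c : ℤ) : List (ℤ × S ι) → List (ℤ × S ι)
  | [] => []
  | p :: l => (p.1 + c - dep k p.2, p.2) :: sh k (arr k p.2) l

/-- The label at the end. -/
def fn (k : ι → ℤ × ℤ) (c : ℤ) : List (ℤ × S ι) → ℤ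
  | [] => c
  | p :: l => fn k (arr k p.2) l

theorem length_sh (k : ι → ℤ × ℤ) (c : ℤ) (l : List (ℤ × S ι)) : (sh k c l).length = l.length := by
  induction l generalizing c with
  | nil => rfl
  | cons p l ih => simp [sh, ih]

theorem tw_ev (k : ι → ℤ × ℤ) (c : ℤ) (l : List (ℤ × S ι)) :
    t ^ c * tw k (ev l) = ev (sh k c l) * t ^ (fn k c l) := by
  induction l generalizing c with
  | nil => simp [ev, sh, fn]
  | cons p l ih =>
    have h := ih (arr k p.2)
    simp only [ev, sh, fn, map_mul, map_zpow, tw_t, tw_xl]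
    calc t ^ c * (t ^ p.1 * (t ^ (-dep k p.2) * xl p.2 * t ^ arr k p.2) * tw k (ev l))
        = (t ^ c * t ^ p.1 * t ^ (-dep k p.2)) * xl p.2 * (t ^ arr k p.2 * tw k (ev l)) := by group
      _ = (t ^ c * t ^ p.1 * t ^ (-dep k p.2)) * xl p.2 * (ev (sh k (arr k p.2) l) * t ^ fn k (arr k p.2) l) := by rw [h]
      _ = t ^ (p.1 + c - dep k p.2) * xl p.2 * ev (sh k (arr k p.2) l) * t ^ fn k (arr k p.2) l := by
          rw [← zpow_add, ← zpow_add]
          have : c + p.1 + -dep k p.2 = p.1 + c - dep k p.2 := by ring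
          rw [this]
          group

theorem red_sh (k : ι → ℤ × ℤ) (c : ℤ) (l : List (ℤ × S ι)) (h : Red l) : Red (sh k c l) := by
  induction l generalizing c with
  | nil => exact h
  | cons p l ih =>
    refine ⟨?_, ih _ h.2⟩
    have h1 : Ok p.2 l := h.1
    cases l with
    | nil => trivial
    | cons q l =>
      intro h3
      apply h1
      have h4 : q.1 + arr k p.2 - dep k q.2 = 0 := h3.1
      have h5 : q.2 = iv p.2 := h3.2
      refine ⟨?_, h5⟩
      rw [h5, dep_iv] at h4
      linarith

theorem pt_tw (k : ι → ℤ × ℤ) (g : F ι) : pt (tw k g) = sh k 0 (pt g) := by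
  obtain ⟨q, hq⟩ := exists_ev g
  have h1 := tw_ev k 0 (pt g)
  have h2 : tw k g = ev (sh k 0 (pt g)) * t ^ (fn k 0 (pt g) + q) := by
    conv_lhs => rw [hq]
    rw [map_mul, map_zpow, tw_t, zpow_add, ← mul_assoc, ← h1]
    simp
  rw [h2, pt_mul_t_zpow, pt_ev _ (red_sh k 0 _ (red_pt g))]

/-- Labels: if the twist moves `g` by powers of `t` only, the left power is the label of the first letter. -/
theorem label (k : ι → ℤ × ℤ) (g : F ι) (p q : ℤ) (h : tw k g = t ^ p * g * t ^ q) (m : ℤ) (s : S ι) (l : List (ℤ × S ι))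
    (hg : pt g = (m, s) :: l) : p = -dep k s := by
  have h1 : pt (tw k g) = T p (pt g) := by
    rw [h, mul_assoc, pt_t_zpow_mul, pt_mul_t_zpow]
  rw [pt_tw, hg] at h1
  simp only [sh, T, List.cons.injEq, Prod.mk.injEq] at h1
  linarith [h1.1.1]

/-- The set of labels. -/
def lab (k : ι → ℤ × ℤ) : Set ℤ := Set.range (dep k)

theorem dep_mem (k : ι → ℤ × ℤ) (s : S ι) : dep k s ∈ lab k := ⟨s, rfl⟩

theorem label_mem (k : ι → ℤ × ℤ) (g : F ι) (p q : ℤ) (h : tw k g = t ^ p * g * t ^ q) (hg : pt g ≠ []) : -p ∈ lab k := by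
  obtain ⟨a, l, hl⟩ := List.exists_cons_of_ne_nil hg
  have := label k g p q h a.1 a.2 l hl
  rw [this, neg_neg]
  exact dep_mem k a.2

theorem commute_t (g : F ι) (e : ℤ) (he : e ≠ 0) (h : t ^ e * g = g * t ^ e) : ∃ q : ℤ, g = t ^ q := by
  apply pt_eq_nil
  have h1 : T e (pt g) = pt g := by
    rw [← pt_t_zpow_mul, h, pt_mul_t_zpow]
  by_contra hne
  obtain ⟨a, l, hl⟩ := List.exists_cons_of_ne_nil hne
  rw [hl] at h1
  simp only [T, List.cons.injEq] at h1
  have := congrArg Prod.fst h1.1
  simp at this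
  exact he this

/-- No cancellation if the heads differ. -/
theorem no_cancel (b : List (ℤ × S ι)) : Red b → ∀ a : Y ι, (b = [] ∨ a.1.head? ≠ b.head?) →
    ((ρ (ev b)⁻¹ : Equiv.Perm (Y ι)) a).1.length = a.1.length + b.length := by
  induction b with
  | nil =>
    intro _ a _
    simp [ev]
  | cons p b ih =>
    intro hb a ha
    have ha' : a.1.head? ≠ some p := by
      rcases ha with h | h
      · cases h
      · exact h
    have h1 : (ev (p :: b))⁻¹ = (ev b)⁻¹ * (xl (iv p.2) * t ^ (-p.1)) := by
      simp [ev]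
    rw [h1, rho_mul]
    set a' : Y ι := (ρ (xl (iv p.2) * t ^ (-p.1)) : Equiv.Perm (Y ι)) a with ha'def
    have h2 : a'.1 = (0, iv p.2) :: T (-p.1) a.1 := by
      rw [ha'def, rho_mul, rho_xl, rho_t_zpow]
      have h3 : Ok (iv p.2) (T (-p.1) a.1) := by
        cases haa : a.1 with
        | nil => trivial
        | cons r a1 =>
          intro h4
          have h5 : r.1 + -p.1 = 0 := h4.1
          have h6 : r.2 = iv (iv p.2) := h4.2
          rw [iv_iv] at h6
          apply ha'
          rw [haa]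
          simp only [List.head?_cons, Option.some.injEq]
          exact Prod.ext (by linarith) h6
      simp [X, h3]
    have hlen : (T (-p.1) a.1).length = a.1.length := by
      cases a.1 <;> simp [T]
    rw [ih hb.2 a' ?_, h2]
    · simp [hlen]
      omega
    · cases b with
      | nil => exact Or.inl rfl
      | cons r b =>
        right
        rw [h2]
        intro h7
        simp only [List.head?_cons, Option.some.injEq] at h7
        have h8 : Ok p.2 (r :: b) := hb.1
        apply h8
        rw [← h7]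
        exact ⟨rfl, rfl⟩

theorem no_cancel' (g h : F ι) (hh : pt h = [] ∨ (pt g).head? ≠ (pt h).head?) :
    (pt (h⁻¹ * g)).length = (pt g).length + (pt h).length := by
  obtain ⟨q, hq⟩ := exists_ev h
  have h1 := no_cancel (pt h) (red_pt h) ((ρ g : Equiv.Perm (Y ι)) bs) hh
  have h2 : h⁻¹ * g = t ^ (-q) * ((ev (pt h))⁻¹ * g) := by
    conv_lhs => rw [hq]
    simp [mul_assoc]
  have h3 : ∀ (n : ℤ) (l : List (ℤ × S ι)), (T n l).length = l.length := by
    intro n l
    cases l <;> simp [T]
  rw [h2, pt_t_zpow_mul, h3]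
  unfold pt at h1 ⊢
  rw [rho_mul]
  exact h1

theorem length_pt_tw (k : ι → ℤ × ℤ) (g : F ι) : (pt (tw k g)).length = (pt g).length := by
  rw [pt_tw, length_sh]

theorem head_eq (k : ι → ℤ × ℤ) (w : F ι) (hB : pt (tw k w * w⁻¹) ≠ []) :
    (pt (tw k w * w⁻¹)).head? = (pt (tw k w)).head? := by
  by_contra hne
  have h1 := no_cancel' (tw k w) (tw k w * w⁻¹) (Or.inr (fun h => hne h.symm))
  have h2 : (tw k w * w⁻¹)⁻¹ * tw k w = w := by group
  rw [h2, length_pt_tw] at h1
  apply hB
  apply List.eq_nil_of_length_eq_zero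
  omega

/-- If `tw k w = t^p w z` with `z` fixed by the twist, then `z` is conjugate to a power of `t`. -/
theorem elliptic (k : ι → ℤ × ℤ) (z : F ι) (hz : tw k z = z) : ∀ (n : ℕ) (w : F ι) (p : ℤ), (pt w).length = n →
    tw k w = t ^ p * w * z → ∃ (u : F ι) (e : ℤ), z = u * t ^ e * u⁻¹ := by
  intro n
  induction n with
  | zero =>
    intro w p hn hw
    obtain ⟨q, hq⟩ := pt_eq_nil (List.eq_nil_of_length_eq_zero hn)
    refine ⟨1, -p, ?_⟩
    rw [hq, map_zpow, tw_t] at hw
    have : z = (t ^ p * t ^ q)⁻¹ * t ^ q := by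
      rw [eq_inv_mul_iff_mul_eq, ← hw]
    rw [this]
    have h2 : (t : F ι) ^ p * t ^ q = t ^ q * t ^ p := by
      rw [← zpow_add, ← zpow_add, add_comm]
    rw [h2]
    simp [mul_assoc]
  | succ n ih =>
    intro w p hn hw
    by_cases hB : pt (tw k w * w⁻¹) = []
    · obtain ⟨b, hb⟩ := pt_eq_nil hB
      refine ⟨w⁻¹, b - p, ?_⟩
      have h1 : tw k w = t ^ b * w := by
        rw [← hb]
        group
      rw [h1] at hw
      have h2 : z = w⁻¹ * (t ^ (-p) * (t ^ b * w)) := by
        rw [hw]
        group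
      rw [h2, sub_eq_neg_add, zpow_add]
      group
    · have h1 := head_eq k w hB
      have h2 : tw k (tw k w * w⁻¹) = t ^ p * (tw k w * w⁻¹) * t ^ (-p) := by
        have h3 : tw k (tw k w * w⁻¹) = tw k (t ^ p * w * z * w⁻¹) := by rw [← hw]
        rw [h3]
        simp only [map_mul, map_zpow, tw_t, map_inv, hz]
        rw [hw]
        group
      obtain ⟨a, l, hl⟩ := List.exists_cons_of_ne_nil (l := pt w) (by
        intro h
        rw [h] at hn
        simp at hn)
      obtain ⟨q, hq⟩ := exists_ev w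
      rw [hl] at hq
      obtain ⟨a', l', hl'⟩ := List.exists_cons_of_ne_nil hB
      have h3 : a'.2 = a.2 := by
        rw [hl', pt_tw, hl] at h1
        simp only [sh, List.head?_cons, Option.some.injEq] at h1
        rw [h1]
      have h4 := label k _ p (-p) h2 a'.1 a'.2 l' hl'
      rw [h3] at h4
      have hw1 : w = t ^ a.1 * xl a.2 * (ev l * t ^ q) := by
        rw [hq]
        simp [ev, mul_assoc]
      have h5 : tw k (ev l * t ^ q) = t ^ (-arr k a.2) * (ev l * t ^ q) * z := by
        have h6 := hw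
        rw [hw1, map_mul, map_mul, map_zpow, tw_t, tw_xl, h4] at h6
        have h7 : t ^ arr k a.2 * tw k (ev l * t ^ q) = (ev l * t ^ q) * z := by
          have h8 : t ^ a.1 * t ^ (-dep k a.2) * xl a.2 * (t ^ arr k a.2 * tw k (ev l * t ^ q)) =
              t ^ a.1 * t ^ (-dep k a.2) * xl a.2 * ((ev l * t ^ q) * z) := by
            calc _ = t ^ a.1 * (t ^ (-dep k a.2) * xl a.2 * t ^ arr k a.2) * tw k (ev l * t ^ q) := by
                  simp only [mul_assoc]
              _ = t ^ (-dep k a.2) * (t ^ a.1 * xl a.2 * (ev l * t ^ q)) * z := h6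
              _ = _ := by
                  have h9 : (t : F ι) ^ a.1 * t ^ (-dep k a.2) = t ^ (-dep k a.2) * t ^ a.1 := by
                    rw [← zpow_add, ← zpow_add, add_comm]
                  rw [h9]
                  simp only [mul_assoc]
          exact mul_left_cancel h8
        calc tw k (ev l * t ^ q) = t ^ (-arr k a.2) * (t ^ arr k a.2 * tw k (ev l * t ^ q)) := by
              rw [← mul_assoc, ← zpow_add]
              simp
          _ = t ^ (-arr k a.2) * ((ev l * t ^ q) * z) := by rw [h7]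
          _ = _ := by simp only [mul_assoc]
      refine ih (ev l * t ^ q) _ ?_ h5
      have hred : Red l := by
        have := red_pt w
        rw [hl] at this
        exact this.2
      rw [pt_mul_t_zpow, pt_ev l hred]
      rw [hl] at hn
      simpa using hn

end Pool.Agent.H61.CT
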