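import Mathlib
import Pool.Agent.H61.CT.B

/-!
# Elements moved by a fixed element on both sides
-/

set_option autoImplicit false
set_option linter.unusedSectionVars false

namespace Pool.Agent.H61.CT

variable {ι : Type} [DecidableEq ι]

/-- The longest initial part of the list that is a path of labels starting at `c`, if it is not the whole list. -/
def pf (k : ι → ℤ × ℤ) (c : ℤ) : List (ℤ × S ι) → Option (List (ℤ × S ι))
  | [] => none
  | p :: l => if dep k p.2 = c then (pf k (arr k p.2) l).map (fun P => p :: P) else some []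

/-- The product of a list with a list, as an action on lists. -/
def act : List (ℤ × S ι) → List (ℤ × S ι) → List (ℤ × S ι)
  | [], v => v
  | p :: l, v => T p.1 (X p.2 (act l v))

theorem rho_ev (l : List (ℤ × S ι)) (v : Y ι) : ((ρ (ev l) : Equiv.Perm (Y ι)) v).1 = act l v.1 := by
  induction l with
  | nil => simp [ev, act]
  | cons p l ih =>
    rw [ev, rho_mul, rho_mul, rho_t_zpow, rho_xl, ih]
    rfl

theorem pf_sh (k : ι → ℤ × ℤ) (c : ℤ) (l : List (ℤ × S ι)) : pf k c (sh k c l) = pf k c l := by
  induction l generalizing c with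
  | nil => rfl
  | cons p l ih =>
    simp only [sh, pf]
    by_cases h : dep k p.2 = c
    · simp only [h, if_true]
      rw [ih]
      have : (p.1 + c - c, p.2) = p := by
        ext <;> simp
      rw [this]
    · simp only [h, if_false]

theorem pf_T (k : ι → ℤ × ℤ) (c m : ℤ) (l : List (ℤ × S ι)) : pf k c (T m l) = (pf k c l).map (T m) := by
  cases l with
  | nil => rfl
  | cons p l =>
    simp only [T, pf]
    by_cases h : dep k p.2 = c
    · simp only [h, if_true, Option.map_map]
      rfl
    · simp only [h, if_false]
      rfl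

theorem pf_prefix (k : ι → ℤ × ℤ) (c : ℤ) (l P : List (ℤ × S ι)) (h : pf k c l = some P) : P <+: l := by
  induction l generalizing c P with
  | nil => simp [pf] at h
  | cons p l ih =>
    simp only [pf] at h
    by_cases h1 : dep k p.2 = c
    · simp only [h1, if_true, Option.map_eq_some_iff] at h
      obtain ⟨P', h2, h3⟩ := h
      rw [← h3]
      exact List.prefix_cons_inj p |>.2 (ih _ _ h2)
    · simp only [h1, if_false, Option.some.injEq] at h
      rw [← h]
      exact List.nil_prefix

theorem ok_prefix (s : S ι) (l P : List (ℤ × S ι)) (h : Ok s l) (hP : P <+: l) : Ok s P := by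
  cases P with
  | nil => trivial
  | cons q P =>
    obtain ⟨r, hr⟩ := hP
    rw [← hr] at h
    exact h

theorem red_prefix (l P : List (ℤ × S ι)) (h : Red l) (hP : P <+: l) : Red P := by
  induction P generalizing l with
  | nil => trivial
  | cons q P ih =>
    obtain ⟨r, hr⟩ := hP
    rw [← hr] at h
    refine ⟨ok_prefix q.2 (P ++ r) P h.1 ⟨r, rfl⟩, ih (P ++ r) h.2 ⟨r, rfl⟩⟩

theorem pf_X (k : ι → ℤ × ℤ) (s : S ι) (v : List (ℤ × S ι)) : pf k (dep k s) (X s v) = (pf k (arr k s) v).map (X s) := by
  by_cases h : Ok s v
  · have h1 : X s v = (0, s) :: v := by simp [X, h]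
    rw [h1]
    simp only [pf, if_true]
    cases hp : pf k (arr k s) v with
    | none => rfl
    | some P =>
      have h2 : Ok s P := ok_prefix s v P h (pf_prefix k _ v P hp)
      simp [X, h2]
  · cases v with
    | nil => exact absurd trivial h
    | cons p l =>
      have h2 : p.1 = 0 ∧ p.2 = iv s := by
        by_contra h3
        exact h h3
      have h1 : X s (p :: l) = l := by simp [X, h]
      rw [h1]
      simp only [pf, h2.2, dep_iv, if_true]
      have h3 : arr k (iv s) = dep k s := by
        rw [← dep_iv, iv_iv]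
      rw [h3, Option.map_map]
      have h4 : (X s) ∘ (fun P => p :: P) = id := by
        funext P
        have h5 : ¬ Ok s (p :: P) := fun h6 => h6 h2
        simp [X, h5]
      rw [h4]
      simp

theorem pf_act (k : ι → ℤ × ℤ) (c : ℤ) (l v : List (ℤ × S ι)) (h : pf k c l = none) :
    pf k c (act l v) = (pf k (fn k c l) v).map (act l) := by
  induction l generalizing c with
  | nil =>
    simp only [act, fn]
    cases pf k c v <;> rfl
  | cons p l ih =>
    simp only [pf] at h
    by_cases h1 : dep k p.2 = c
    · simp only [h1, if_true, Option.map_eq_none_iff] at h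
      have h2 := ih _ h
      simp only [act, fn]
      rw [pf_T, ← h1, pf_X, h2, Option.map_map, Option.map_map]
      rfl
    · simp [h1] at h

theorem pf_suffix (k : ι → ℤ × ℤ) (e : ℤ) (n n' : List (ℤ × S ι)) (h : pf k e n = none) (hs : n' <:+ n) :
    ∃ e', pf k e' n' = none := by
  induction n generalizing e with
  | nil =>
    rw [List.suffix_nil] at hs
    exact ⟨0, by rw [hs]; rfl⟩
  | cons p n ih =>
    rw [List.suffix_cons_iff] at hs
    rcases hs with hs | hs
    · exact ⟨e, by rw [hs]; exact h⟩
    · simp only [pf] at h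
      by_cases h1 : dep k p.2 = e
      · simp only [h1, if_true, Option.map_eq_none_iff] at h
        exact ih _ h hs
      · simp [h1] at h

theorem act_head (l n : List (ℤ × S ι)) (hl : Red l) :
    (act l n).head? = l.head? ∨ ∃ (r : ℤ) (n' : List (ℤ × S ι)), n' <:+ n ∧ act l n = T r n' := by
  induction l with
  | nil => exact Or.inr ⟨0, n, List.suffix_refl n, by rw [T_zero]; rfl⟩
  | cons p l ih =>
    by_cases h : Ok p.2 (act l n)
    · left
      simp [act, X, h, T]
    · right
      have ih := ih hl.2
      cases hu : act l n with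
      | nil =>
        rw [hu] at h
        exact absurd trivial h
      | cons q u =>
        rw [hu] at ih h
        have h2 : q.1 = 0 ∧ q.2 = iv p.2 := by
          by_contra h3
          exact h h3
        have h4 : act (p :: l) n = T p.1 u := by
          simp only [act]
          rw [hu]
          simp [X, h]
        rcases ih with ih | ⟨r, n', hn, hq⟩
        · exfalso
          have h1 : Ok p.2 l := hl.1
          cases l with
          | nil => simp at ih
          | cons a l =>
            simp only [List.head?_cons, Option.some.injEq] at ih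
            rw [← ih] at h1
            exact h1 h2
        · cases n' with
          | nil => simp [T] at hq
          | cons b n' =>
            simp only [T, List.cons.injEq] at hq
            refine ⟨p.1, n', ?_, ?_⟩
            · exact (List.suffix_cons b n').trans hn
            · rw [h4, hq.2]

theorem pf_act_some (k : ι → ℤ × ℤ) (c e : ℤ) (l n P : List (ℤ × S ι)) (hl : Red l) (h : pf k c l = some P) (hn : pf k e n = none) :
    pf k c (act l n) = none ∨ pf k c (act l n) = some P := by
  induction l generalizing c P with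
  | nil => simp [pf] at h
  | cons p l ih =>
    simp only [pf] at h
    by_cases h1 : dep k p.2 = c
    · simp only [h1, if_true, Option.map_eq_some_iff] at h
      obtain ⟨P', h2, h3⟩ := h
      have h4 := ih _ P' hl.2 h2
      simp only [act]
      rw [pf_T, ← h1, pf_X]
      rcases h4 with h4 | h4
      · left
        rw [h4]
        rfl
      · right
        rw [h4, ← h3]
        have h5 : Ok p.2 P' := ok_prefix p.2 l P' hl.1 (pf_prefix k _ l P' h2)
        simp [X, h5, T]
    · simp only [h1, if_false, Option.some.injEq] at h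
      rw [← h]
      rcases act_head (p :: l) n hl with h2 | ⟨r, n', h2, h3⟩
      · cases hu : act (p :: l) n with
        | nil =>
          rw [hu] at h2
          simp at h2
        | cons q u =>
          rw [hu] at h2
          simp only [List.head?_cons, Option.some.injEq] at h2
          right
          simp only [pf]
          rw [h2]
          simp [h1]
      · rw [h3, pf_T]
        obtain ⟨e', he⟩ := pf_suffix k e n n' hn h2
        cases n' with
        | nil =>
          left
          rfl
        | cons b n' =>
          by_cases h4 : dep k b.2 = e'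
          · by_cases h5 : e' = c
            · left
              rw [← h5, he]
              rfl
            · right
              simp only [pf]
              rw [h4]
              simp [h5, T]
          · simp [pf, h4] at he

/-- The exponent sum of `t`. -/
def te : F ι →* Multiplicative ℤ :=
  FreeGroup.lift (fun o => match o with
    | none => Multiplicative.ofAdd 1
    | some _ => 1)

theorem te_t : te (t : F ι) = Multiplicative.ofAdd 1 := by
  simp [te, t]

theorem te_t_zpow (n : ℤ) : te ((t : F ι) ^ n) = Multiplicative.ofAdd n := by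
  rw [map_zpow, te_t, ← ofAdd_zsmul]
  simp

theorem zpow_inj {m n : ℤ} (h : (t : F ι) ^ m = t ^ n) : m = n := by
  have := congrArg te h
  rw [te_t_zpow, te_t_zpow] at this
  exact Multiplicative.ofAdd.injective this

theorem pf_of_sh (k : ι → ℤ × ℤ) (c : ℤ) (l : List (ℤ × S ι)) (h : sh k c l = l) : pf k c l = none := by
  induction l generalizing c with
  | nil => rfl
  | cons p l ih =>
    simp only [sh, List.cons.injEq] at h
    have h1 : dep k p.2 = c := by
      have := congrArg Prod.fst h.1
      simp only at this
      linarith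
    simp only [pf, h1, if_true]
    rw [ih _ h.2]
    rfl

theorem sh_of_pf (k : ι → ℤ × ℤ) (c : ℤ) (l : List (ℤ × S ι)) (h : pf k c l = none) : sh k c l = l := by
  induction l generalizing c with
  | nil => rfl
  | cons p l ih =>
    simp only [pf] at h
    by_cases h1 : dep k p.2 = c
    · simp only [h1, if_true, Option.map_eq_none_iff] at h
      simp only [sh, h1]
      rw [ih _ h]
      have : (p.1 + c - c, p.2) = p := by
        ext <;> simp
      rw [this]
    · simp [h1] at h

/-- An element whose list is a path of labels from 0 is multiplied by a power of `t` on the right. -/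
theorem tw_of_pf (k : ι → ℤ × ℤ) (w : F ι) (h : pf k 0 (pt w) = none) : tw k w = w * t ^ (fn k 0 (pt w)) := by
  obtain ⟨q, hq⟩ := exists_ev w
  have h1 := tw_ev k 0 (pt w)
  rw [sh_of_pf k 0 (pt w) h] at h1
  have h2 : tw k w = ev (pt w) * t ^ (fn k 0 (pt w)) * t ^ q := by
    conv_lhs => rw [hq]
    rw [map_mul, map_zpow, tw_t, ← h1]
    simp
  rw [h2]
  conv_rhs => rw [hq]
  rw [pt_mul_t_zpow, pt_ev _ (red_pt w), mul_assoc, mul_assoc, ← zpow_add, ← zpow_add, add_comm]

theorem fixed (k : ι → ℤ × ℤ) (z : F ι) (hz : tw k z = z) : pf k 0 (pt z) = none ∧ fn k 0 (pt z) = 0 := by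
  have h1 : pf k 0 (pt z) = none := by
    apply pf_of_sh
    rw [← pt_tw, hz]
  refine ⟨h1, ?_⟩
  have h2 := tw_of_pf k z h1
  rw [hz] at h2
  have h3 : (t : F ι) ^ (fn k 0 (pt z)) = t ^ (0 : ℤ) := by
    rw [zpow_zero]
    exact (mul_eq_left.1 h2.symm)
  exact zpow_inj h3

/-- If `tw k w = z^(-α) w z^β` with `z` fixed and `w` is not a path element from 0, then `z^(-α)` fixes a vertex. -/
theorem elliptic2 (k : ι → ℤ × ℤ) (z w : F ι) (hz : tw k z = z) (α β : ℤ) (h : tw k w = z ^ (-α) * w * z ^ β)
    (P : List (ℤ × S ι)) (hP : pf k 0 (pt w) = some P) : ∃ (u : F ι) (e : ℤ), z ^ (-α) = u * t ^ e * u⁻¹ := by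
  have hzα : tw k (z ^ (-α)) = z ^ (-α) := by rw [map_zpow, hz]
  have hzβ : tw k (z ^ β) = z ^ β := by rw [map_zpow, hz]
  obtain ⟨a1, a2⟩ := fixed k _ hzα
  obtain ⟨b1, b2⟩ := fixed k _ hzβ
  obtain ⟨r, hr⟩ := exists_ev (z ^ (-α))
  obtain ⟨q, hq⟩ := exists_ev w
  have hred : Red P := red_prefix _ _ (red_pt w) (pf_prefix k 0 _ P hP)
  -- the action of z^(-α)
  have act1 : ∀ v : Y ι, ((ρ (z ^ (-α)) : Equiv.Perm (Y ι)) v).1 = act (pt (z ^ (-α))) (T r v.1) := by
    intro v
    conv_lhs => rw [hr]
    rw [rho_mul, rho_ev, rho_t_zpow]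
  have tr1 : ∀ v : Y ι, pf k 0 ((ρ (z ^ (-α)) : Equiv.Perm (Y ι)) v).1 =
      (pf k 0 v.1).map (fun Q => act (pt (z ^ (-α))) (T r Q)) := by
    intro v
    rw [act1, pf_act k 0 _ _ a1, a2, pf_T, Option.map_map]
    rfl
  have h1 : pt (tw k w) = ((ρ (z ^ (-α)) : Equiv.Perm (Y ι)) ((ρ (w * z ^ β) : Equiv.Perm (Y ι)) bs)).1 := by
    rw [h, mul_assoc]
    unfold pt
    rw [rho_mul]
  have h2 : pf k 0 (pt (tw k w)) = some P := by
    rw [pt_tw, pf_sh, hP]
  rw [h1, tr1] at h2
  have h3 : ((ρ (w * z ^ β) : Equiv.Perm (Y ι)) bs).1 = act (pt w) (T q (pt (z ^ β))) := by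
    rw [rho_mul]
    conv_lhs => rw [hq]
    rw [rho_mul, rho_ev, rho_t_zpow]
    rfl
  have h4 := pf_act_some k 0 0 (pt w) (T q (pt (z ^ β))) P (red_pt w) hP (by rw [pf_T, b1]; rfl)
  rw [h3] at h2
  rcases h4 with h4 | h4
  · rw [h4] at h2
    simp at h2
  · rw [h4] at h2
    simp only [Option.map_some, Option.some.injEq] at h2
    have h5 := act1 ⟨P, hred⟩
    simp only [h2] at h5
    obtain ⟨e, he⟩ := mul_ev (z ^ (-α)) ⟨P, hred⟩
    rw [h5] at he
    refine ⟨ev P, e, ?_⟩
    rw [← he]
    simp

end Pool.Agent.H61.CT
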