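import Mathlib
import Pool.Agent.H61.CT.C

/-!
# The image of `t` under an automorphism that intertwines two twists
-/

set_option autoImplicit false
set_option linter.unusedSectionVars false

namespace Pool.Agent.H61.CT

variable {ι : Type} [DecidableEq ι]

theorem t_zpow_ne (m : ℤ) (hm : m ≠ 0) : (t : F ι) ^ m ≠ 1 := by
  intro h
  apply hm
  apply zpow_inj (ι := ι)
  rw [h, zpow_zero]

/-- If a nonzero power of `θ t` is conjugate to a power of `t`, then `θ t` is conjugate to `t` or to its inverse. -/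
theorem cyc (θ : F ι ≃* F ι) (u : F ι) (e m : ℤ) (hm : m ≠ 0) (h : (θ t) ^ m = u * t ^ e * u⁻¹) :
    ∃ f : ℤ, (f = 1 ∨ f = -1) ∧ θ t = u * t ^ f * u⁻¹ := by
  have he : e ≠ 0 := by
    intro he
    rw [he] at h
    simp only [zpow_zero, mul_one, mul_inv_cancel] at h
    rw [← map_zpow] at h
    have h1 : (t : F ι) ^ m = 1 := by
      apply θ.injective
      rw [h, map_one]
    exact t_zpow_ne m hm h1
  have h1 : t ^ e * (u⁻¹ * θ t * u) = (u⁻¹ * θ t * u) * t ^ e := by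
    have h2 : t ^ e = u⁻¹ * (θ t) ^ m * u := by
      rw [h]
      group
    rw [h2]
    have h3 : (θ t) ^ m * θ t = θ t * (θ t) ^ m := by
      rw [← zpow_add_one, ← zpow_one_add, add_comm]
    calc u⁻¹ * (θ t) ^ m * u * (u⁻¹ * θ t * u) = u⁻¹ * ((θ t) ^ m * θ t) * u := by group
      _ = u⁻¹ * (θ t * (θ t) ^ m) * u := by rw [h3]
      _ = _ := by group
  obtain ⟨f, hf⟩ := commute_t _ e he h1
  have h2 : θ t = u * t ^ f * u⁻¹ := by
    rw [← hf]
    group
  refine ⟨f, ?_, h2⟩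
  have h3 : (t : F ι) = θ.symm u * (θ.symm t) ^ f * (θ.symm u)⁻¹ := by
    have h4 := congrArg θ.symm h2
    rw [MulEquiv.symm_apply_apply, map_mul, map_mul, map_zpow, map_inv] at h4
    exact h4
  have h5 : (Multiplicative.ofAdd (1 : ℤ)) = (te (θ.symm t : F ι)) ^ f := by
    have h6 := congrArg te h3
    rw [te_t, map_mul, map_mul, map_zpow, map_inv] at h6
    rw [h6, mul_comm (te (θ.symm u)), mul_inv_cancel_right]
  have h7 : (1 : ℤ) = f * Multiplicative.toAdd (te (θ.symm t : F ι)) := by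
    have h8 := congrArg Multiplicative.toAdd h5
    rw [toAdd_ofAdd, toAdd_zpow, smul_eq_mul] at h8
    exact h8
  exact Int.eq_one_or_neg_one_of_mul_eq_one h7.symm

theorem pt_x (i : ι) : pt (x i : F ι) = [(0, (i, true))] := by
  have h : (x i : F ι) = ev [(0, (i, true))] := by simp [ev, xl]
  rw [h, pt_ev]
  exact ⟨trivial, trivial⟩

theorem int_of_x (i : ι) (α β : ℤ) (h : (t : F ι) ^ (-α) * x i * t ^ β = x i) : α = 0 ∧ β = 0 := by
  have h1 : T (-α) (pt (x i : F ι)) = pt (x i : F ι) := by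
    conv_rhs => rw [← h]
    rw [mul_assoc, pt_t_zpow_mul, pt_mul_t_zpow]
  rw [pt_x] at h1
  simp only [T, List.cons.injEq, Prod.mk.injEq] at h1
  have h2 : α = 0 := by linarith [h1.1.1]
  refine ⟨h2, ?_⟩
  rw [h2] at h
  simp only [neg_zero, zpow_zero, one_mul] at h
  have h3 : (t : F ι) ^ β = t ^ (0 : ℤ) := by
    rw [zpow_zero]
    exact mul_eq_left.1 h
  exact zpow_inj h3

/-- Some nonzero power of `θ t` is conjugate to a power of `t`, or the same for the inverse of `θ`. -/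
theorem exists_pow (k k' : ι → ℤ × ℤ) (θ : F ι ≃* F ι) (hθ : ∀ g, θ (tw k g) = tw k' (θ g)) (i : ι) (hi : k i ≠ (0, 0)) :
    (∃ (u : F ι) (e m : ℤ), m ≠ 0 ∧ (θ t) ^ m = u * t ^ e * u⁻¹) ∨
      (∃ (u : F ι) (e m : ℤ), m ≠ 0 ∧ (θ.symm t) ^ m = u * t ^ e * u⁻¹) := by
  have hz : tw k' (θ t) = θ t := by rw [← hθ, tw_t]
  have hw : tw k' (θ (x i)) = (θ t) ^ (-(k i).1) * θ (x i) * (θ t) ^ ((k i).2) := by
    rw [← hθ, tw_x]
    simp
  have hw' : tw k' (θ (x i))⁻¹ = (θ t) ^ (-(k i).2) * (θ (x i))⁻¹ * (θ t) ^ ((k i).1) := by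
    rw [map_inv, hw]
    group
  by_cases hα : (k i).1 = 0
  · have hβ : (k i).2 ≠ 0 := by
      intro hβ
      exact hi (Prod.ext hα hβ)
    left
    cases hP : pf k' 0 (pt (θ (x i))⁻¹) with
    | some P =>
      obtain ⟨u, e, h⟩ := elliptic2 k' (θ t) _ hz _ _ hw' P hP
      exact ⟨u, e, -(k i).2, neg_ne_zero.2 hβ, h⟩
    | none =>
      have h := tw_of_pf k' _ hP
      rw [hw', hα, zpow_zero, mul_one] at h
      refine ⟨(θ (x i))⁻¹, fn k' 0 (pt (θ (x i))⁻¹), -(k i).2, neg_ne_zero.2 hβ, ?_⟩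
      rw [← h]
      simp
  · cases hP : pf k' 0 (pt (θ (x i))) with
    | some P =>
      left
      obtain ⟨u, e, h⟩ := elliptic2 k' (θ t) _ hz _ _ hw P hP
      exact ⟨u, e, -(k i).1, neg_ne_zero.2 hα, h⟩
    | none =>
      right
      have h := tw_of_pf k' _ hP
      set c := fn k' 0 (pt (θ (x i))) with hc
      have h1 : tw k (x i) = x i * (θ.symm t) ^ c := by
        apply θ.injective
        rw [hθ, h]
        simp
      have hτ : tw k (θ.symm t) = θ.symm t := by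
        apply θ.injective
        rw [hθ]
        simp
      have hτc : tw k ((θ.symm t) ^ c) = (θ.symm t) ^ c := by
        rw [map_zpow, hτ]
      obtain ⟨u, e, h2⟩ := elliptic k ((θ.symm t) ^ c) hτc _ (x i) 0 rfl (by rw [h1]; simp)
      refine ⟨u, e, c, ?_, h2⟩
      intro hc0
      rw [hc0, tw_x, zpow_zero, mul_one] at h1
      exact hα (int_of_x i _ _ h1).1

/-- The image of `t`. -/
theorem image_t (k k' : ι → ℤ × ℤ) (θ : F ι ≃* F ι) (hθ : ∀ g, θ (tw k g) = tw k' (θ g)) (i : ι) (hi : k i ≠ (0, 0)) :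
    ∃ (u : F ι) (f a : ℤ), (f = 1 ∨ f = -1) ∧ θ t = u * t ^ f * u⁻¹ ∧ tw k' u = u * t ^ a := by
  have h1 : ∃ (u : F ι) (f : ℤ), (f = 1 ∨ f = -1) ∧ θ t = u * t ^ f * u⁻¹ := by
    rcases exists_pow k k' θ hθ i hi with ⟨u, e, m, hm, h⟩ | ⟨u, e, m, hm, h⟩
    · obtain ⟨f, hf, h2⟩ := cyc θ u e m hm h
      exact ⟨u, f, hf, h2⟩
    · obtain ⟨f, hf, h2⟩ := cyc θ.symm u e m hm h
      refine ⟨(θ u)⁻¹, f, hf, ?_⟩
      have h3 : (t : F ι) = θ u * (θ t) ^ f * (θ u)⁻¹ := by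
        have h4 := congrArg θ h2
        rw [MulEquiv.apply_symm_apply] at h4
        rw [← map_zpow, ← map_inv, ← map_mul, ← map_mul]
        exact h4
      have h5 : (θ t) ^ f = (θ u)⁻¹ * t * θ u := by
        rw [eq_comm]
        calc (θ u)⁻¹ * t * θ u = (θ u)⁻¹ * (θ u * (θ t) ^ f * (θ u)⁻¹) * θ u := by rw [← h3]
          _ = _ := by group
      rcases hf with hf | hf
      · rw [hf] at h5 ⊢
        rw [zpow_one] at h5
        rw [h5]
        simp
      · rw [hf] at h5 ⊢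
        rw [zpow_neg_one] at h5
        rw [← inv_inv (θ t), h5]
        group
  obtain ⟨u, f, hf, h2⟩ := h1
  have hf0 : f ≠ 0 := by
    rcases hf with hf | hf <;> rw [hf] <;> decide
  have hz : tw k' (θ t) = θ t := by rw [← hθ, tw_t]
  have h3 : tw k' u * t ^ f * (tw k' u)⁻¹ = u * t ^ f * u⁻¹ := by
    rw [← h2, ← hz, h2]
    simp
  have h4 : t ^ f * (u⁻¹ * tw k' u) = (u⁻¹ * tw k' u) * t ^ f := by
    calc t ^ f * (u⁻¹ * tw k' u) = u⁻¹ * (u * t ^ f * u⁻¹) * tw k' u := by group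
      _ = u⁻¹ * (tw k' u * t ^ f * (tw k' u)⁻¹) * tw k' u := by rw [h3]
      _ = _ := by group
  obtain ⟨a, ha⟩ := commute_t _ f hf0 h4
  refine ⟨u, f, a, hf, h2, ?_⟩
  rw [← ha]
  group

end Pool.Agent.H61.CT
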