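import Mathlib
import Pool.Agent.H61.CT.B

/-!
# The label graph, equivalence of label data, and path elements
-/

set_option autoImplicit false
set_option linter.unusedSectionVars false

namespace Pool.Agent.H61.CT

variable {ι : Type} [DecidableEq ι]

/-- Two labels are connected in the label graph (vertices: the integers; edges: `(k i).1 -- (k i).2`). -/
def R (k : ι → ℤ × ℤ) : ℤ → ℤ → Prop := Relation.EqvGen (fun a b => ∃ i, (k i).1 = a ∧ (k i).2 = b)

theorem R.refl (k : ι → ℤ × ℤ) (a : ℤ) : R k a a := Relation.EqvGen.refl a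

theorem R.symm {k : ι → ℤ × ℤ} {a b : ℤ} (h : R k a b) : R k b a := Relation.EqvGen.symm _ _ h

theorem R.trans {k : ι → ℤ × ℤ} {a b c : ℤ} (h : R k a b) (h' : R k b c) : R k a c := Relation.EqvGen.trans _ _ _ h h'

theorem R.edge (k : ι → ℤ × ℤ) (i : ι) : R k (k i).1 (k i).2 := Relation.EqvGen.rel _ _ ⟨i, rfl, rfl⟩

/-- Number of edges in the class of `a`. -/
noncomputable def cnt (k : ι → ℤ × ℤ) (a : ℤ) : ℕ := Nat.card {i : ι // R k a (k i).1}

/-- Conjugacy by an automorphism that fixes `t`. -/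
def Eq0 (k k' : ι → ℤ × ℤ) : Prop := ∃ η : F ι ≃* F ι, η t = t ∧ ∀ g, η (tw k g) = tw k' (η g)

theorem Eq0.refl (k : ι → ℤ × ℤ) : Eq0 k k := ⟨MulEquiv.refl _, rfl, fun _ => rfl⟩

theorem Eq0.symm {k k' : ι → ℤ × ℤ} (h : Eq0 k k') : Eq0 k' k := by
  obtain ⟨η, h1, h2⟩ := h
  refine ⟨η.symm, ?_, ?_⟩
  · rw [MulEquiv.symm_apply_eq, h1]
  · intro g
    rw [MulEquiv.symm_apply_eq, h2]
    simp

theorem Eq0.trans {k k' k'' : ι → ℤ × ℤ} (h : Eq0 k k') (h' : Eq0 k' k'') : Eq0 k k'' := by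
  obtain ⟨η, h1, h2⟩ := h
  obtain ⟨ζ, h3, h4⟩ := h'
  refine ⟨η.trans ζ, ?_, ?_⟩
  · simp [h1, h3]
  · intro g
    simp [h2, h4]

/-- To check the intertwining relation it is enough to do it on the generators. -/
theorem eq0_of (k k' : ι → ℤ × ℤ) (η : F ι ≃* F ι) (h1 : η t = t) (h2 : ∀ i, η (tw k (x i)) = tw k' (η (x i))) : Eq0 k k' := by
  refine ⟨η, h1, ?_⟩
  have : (η.toMonoidHom).comp (tw k) = (tw k').comp η.toMonoidHom := by
    apply hom_ext'
    · simp [h1]
    · intro i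
      simpa using h2 i
  intro g
  exact DFunLike.congr_fun this g

end Pool.Agent.H61.CT
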