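import Mathlib
import Pool.Agent.H61.CT.Rel

/-!
# Path elements
-/

set_option autoImplicit false
set_option linter.unusedSectionVars false

namespace Pool.Agent.H61.CT

variable {ι : Type} [DecidableEq ι]

theorem R_dep_arr (k : ι → ℤ × ℤ) (s : S ι) : R k (dep k s) (arr k s) := by
  obtain ⟨i, b⟩ := s
  cases b with
  | true => simpa [dep, arr] using R.edge k i
  | false => simpa [dep, arr] using (R.edge k i).symm

theorem R_dep_fst (k : ι → ℤ × ℤ) (s : S ι) : R k (dep k s) (k s.1).1 := by
  obtain ⟨i, b⟩ := s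
  cases b with
  | true => simpa [dep] using R.refl k (k i).1
  | false => simpa [dep] using (R.edge k i).symm

theorem t_zpow_inj {a b : ℤ} (h : (t : F ι) ^ a = t ^ b) : a = b := by
  have h1 := congrArg (FreeGroup.lift (fun _ : Option ι => Multiplicative.ofAdd (1 : ℤ))) h
  rw [map_zpow, map_zpow] at h1
  have h2 : FreeGroup.lift (fun _ : Option ι => Multiplicative.ofAdd (1 : ℤ)) (t : F ι) = Multiplicative.ofAdd (1 : ℤ) := by
    simp [t]
  rw [h2, ← ofAdd_zsmul, ← ofAdd_zsmul] at h1
  simpa using h1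

theorem path_mem_aux (k : ι → ℤ × ℤ) (q : ℤ) : ∀ (n : ℕ) (v : F ι) (p : ℤ), (pt v).length = n →
    tw k v = t ^ (-p) * v * t ^ q →
    R k p q ∧ v ∈ Subgroup.closure (insert (t : F ι) {g | ∃ j, R k p (k j).1 ∧ g = x j}) := by
  intro n
  induction n with
  | zero =>
    intro v p hn h
    obtain ⟨r, hr⟩ := pt_eq_nil (List.eq_nil_of_length_eq_zero hn)
    rw [hr, map_zpow, tw_t, ← zpow_add, ← zpow_add] at h
    have h1 := t_zpow_inj h
    have h2 : p = q := by linarith
    refine ⟨h2 ▸ R.refl k p, ?_⟩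
    rw [hr]
    exact Subgroup.zpow_mem _ (Subgroup.subset_closure (Set.mem_insert _ _)) _
  | succ n ih =>
    intro v p hn h
    obtain ⟨a, l, hl⟩ := List.exists_cons_of_ne_nil (l := pt v) (by
      intro h0
      rw [h0] at hn
      simp at hn)
    obtain ⟨r, hr⟩ := exists_ev v
    rw [hl] at hr
    have h4 := label k v (-p) q h a.1 a.2 l hl
    have hp : p = dep k a.2 := by linarith
    have hw1 : v = t ^ a.1 * xl a.2 * (ev l * t ^ r) := by
      rw [hr]
      simp [ev, mul_assoc]
    have hred : Red l := by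
      have := red_pt v
      rw [hl] at this
      exact this.2
    have h5 : tw k (ev l * t ^ r) = t ^ (-arr k a.2) * (ev l * t ^ r) * t ^ q := by
      have h6 := h
      rw [h4, hw1, map_mul, map_mul, map_zpow, tw_t, tw_xl] at h6
      have h7 : t ^ arr k a.2 * tw k (ev l * t ^ r) = (ev l * t ^ r) * t ^ q := by
        have h8 : t ^ a.1 * t ^ (-dep k a.2) * xl a.2 * (t ^ arr k a.2 * tw k (ev l * t ^ r)) =
            t ^ a.1 * t ^ (-dep k a.2) * xl a.2 * ((ev l * t ^ r) * t ^ q) := by
          calc _ = t ^ a.1 * (t ^ (-dep k a.2) * xl a.2 * t ^ arr k a.2) * tw k (ev l * t ^ r) := by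
                simp only [mul_assoc]
            _ = t ^ (-dep k a.2) * (t ^ a.1 * xl a.2 * (ev l * t ^ r)) * t ^ q := h6
            _ = _ := by
                have h9 : (t : F ι) ^ a.1 * t ^ (-dep k a.2) = t ^ (-dep k a.2) * t ^ a.1 := by
                  rw [← zpow_add, ← zpow_add, add_comm]
                rw [h9]
                simp only [mul_assoc]
        exact mul_left_cancel h8
      calc tw k (ev l * t ^ r) = t ^ (-arr k a.2) * (t ^ arr k a.2 * tw k (ev l * t ^ r)) := by
            rw [← mul_assoc, ← zpow_add]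
            simp
        _ = t ^ (-arr k a.2) * ((ev l * t ^ r) * t ^ q) := by rw [h7]
        _ = _ := by simp only [mul_assoc]
    have hlen : (pt (ev l * t ^ r)).length = n := by
      rw [pt_mul_t_zpow, pt_ev l hred]
      rw [hl] at hn
      simpa using hn
    obtain ⟨h10, h11⟩ := ih (ev l * t ^ r) (arr k a.2) hlen h5
    have h12 : R k p (arr k a.2) := hp ▸ R_dep_arr k a.2
    refine ⟨h12.trans h10, ?_⟩
    have h13 : ev l * t ^ r ∈ Subgroup.closure (insert (t : F ι) {g | ∃ j, R k p (k j).1 ∧ g = x j}) := by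
      refine Subgroup.closure_mono ?_ h11
      apply Set.insert_subset_insert
      rintro g ⟨j, hj, rfl⟩
      exact ⟨j, h12.trans hj, rfl⟩
    have h14 : x a.2.1 ∈ Subgroup.closure (insert (t : F ι) {g | ∃ j, R k p (k j).1 ∧ g = x j}) :=
      Subgroup.subset_closure (Set.mem_insert_of_mem _ ⟨a.2.1, hp ▸ R_dep_fst k a.2, rfl⟩)
    have h15 : xl a.2 ∈ Subgroup.closure (insert (t : F ι) {g | ∃ j, R k p (k j).1 ∧ g = x j}) := by
      unfold xl
      split_ifs
      · exact h14
      · exact Subgroup.inv_mem _ h14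
    rw [hw1]
    exact Subgroup.mul_mem _ (Subgroup.mul_mem _
      (Subgroup.zpow_mem _ (Subgroup.subset_closure (Set.mem_insert _ _)) _) h15) h13

/-- ROW E1a. If `tw k v = t^(-p) v t^q` then `p` and `q` are connected and `v` is a product of powers of `t` and of letters whose
edges are in the class of `p`.
Proof: induction on the length of `pt v` (generalise `v p`). If `pt v = []` then `v = t^r` (`pt_eq_nil`), so `t^r = t^(-p+r+q)`, and
`p = q` (apply the homomorphism to the integers that sends `t` to 1 and the `x_i` to 0, or `FreeGroup` facts). If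
`pt v = (m, s) :: l`: `label` gives `-p = -dep k s`. Write `v = t^m * xl s * v'` with `v' = ev l * t^r` (`exists_ev`; see the proof of
`elliptic` in file B for the same manipulation); then `tw k v' = t^(-arr k s) * v' * t^q`, and `pt v' = l` is shorter
(`pt_mul_t_zpow`, `pt_ev`, `red_pt`). Finally `dep k s` and `arr k s` are the two ends of the edge `s.1`. -/
theorem path_mem (k : ι → ℤ × ℤ) (v : F ι) (p q : ℤ) (h : tw k v = t ^ (-p) * v * t ^ q) :
    R k p q ∧ v ∈ Subgroup.closure (insert (t : F ι) {g | ∃ j, R k p (k j).1 ∧ g = x j}) :=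
  path_mem_aux k q _ v p rfl h

/-- ROW E1b. Connected labels are joined by a path element. Proof: `Relation.EqvGen` induction: for an edge take `x i`; inverse for
symmetry (if `tw k v = t^(-p) v t^q` then `tw k v⁻¹ = t^(-q) v⁻¹ t^p`); product for transitivity. -/
theorem exists_path (k : ι → ℤ × ℤ) (p q : ℤ) (h : R k p q) : ∃ v : F ι, tw k v = t ^ (-p) * v * t ^ q := by
  unfold R at h
  induction h with
  | rel a b hab =>
    obtain ⟨i, rfl, rfl⟩ := hab
    exact ⟨x i, by simp⟩
  | refl a => exact ⟨1, by simp⟩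
  | symm a b _ ih =>
    obtain ⟨v, hv⟩ := ih
    refine ⟨v⁻¹, ?_⟩
    rw [map_inv, hv]
    group
  | trans a b c _ _ ih1 ih2 =>
    obtain ⟨v, hv⟩ := ih1
    obtain ⟨w, hw⟩ := ih2
    refine ⟨v * w, ?_⟩
    rw [map_mul, hv, hw]
    group

end Pool.Agent.H61.CT
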