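import Mathlib
import Pool.Agent.H61.CT.E1

/-!
# Invariants of conjugacy by automorphisms that fix `t`
-/

set_option autoImplicit false
set_option linter.unusedSectionVars false

namespace Pool.Agent.H61.CT

variable {ι : Type} [DecidableEq ι]

/-- ROW E2a. Proof: `R k` is generated by the edges; for an edge `i` put `v = η (x i)`, then `tw k' v = η (tw k (x i)) =
t^(-(k i).1) * v * t^(k i).2` (as `η t = t`), and `path_mem` gives `R k' (k i).1 (k i).2`. -/
theorem eq0_R {k k' : ι → ℤ × ℤ} (h : Eq0 k k') (a b : ℤ) (hab : R k a b) : R k' a b := by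
  obtain ⟨η, h1, h2⟩ := h
  unfold R at hab
  induction hab with
  | rel a b hab =>
    obtain ⟨i, rfl, rfl⟩ := hab
    refine (path_mem k' (η (x i)) _ _ ?_).1
    rw [← h2, tw_x, map_mul, map_mul, map_zpow, map_zpow, h1]
  | refl a => exact R.refl k' a
  | symm a b _ ih => exact R.symm ih
  | trans a b c _ _ ih1 ih2 => exact R.trans ih1 ih2

/-- Exponent sums of the letters `x i`. -/
def exE2 : F ι →* Multiplicative (ι → ℤ) :=
  FreeGroup.lift (fun o => match o with
    | none => 1
    | some i => Multiplicative.ofAdd (Pi.single i 1))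

theorem exE2_t : exE2 (t : F ι) = 1 := by
  simp [exE2, t]

theorem exE2_x (i : ι) : exE2 (x i : F ι) = Multiplicative.ofAdd (Pi.single i 1) := by
  simp [exE2, x]

/-- The matrix of an automorphism on exponent sums. -/
noncomputable def mtE2 [Fintype ι] (η : F ι ≃* F ι) : (ι → ℤ) →ₗ[ℤ] (ι → ℤ) :=
  Fintype.linearCombination ℤ (fun i => Multiplicative.toAdd (exE2 (η (x i))))

theorem mtE2_single [Fintype ι] (η : F ι ≃* F ι) (i : ι) :
    mtE2 η (Pi.single i 1) = Multiplicative.toAdd (exE2 (η (x i))) := by
  simp [mtE2, Fintype.linearCombination_apply_single]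

theorem mtE2_ex [Fintype ι] (η : F ι ≃* F ι) (h1 : η t = t) (g : F ι) :
    mtE2 η (Multiplicative.toAdd (exE2 g)) = Multiplicative.toAdd (exE2 (η g)) := by
  have key : (AddMonoidHom.toMultiplicative (mtE2 η).toAddMonoidHom).comp exE2 = exE2.comp η.toMonoidHom := by
    apply hom_ext'
    · simp [exE2_t, h1]
    · intro i
      have h2 := mtE2_single η i
      apply Multiplicative.toAdd.injective
      simp only [MonoidHom.comp_apply, exE2_x]
      exact h2
  have h3 := DFunLike.congr_fun key g
  exact congrArg Multiplicative.toAdd h3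

theorem mtE2_inj [Fintype ι] (η : F ι ≃* F ι) (h1 : η t = t) : Function.Injective (mtE2 η) := by
  have h2 : η.symm t = t := by
    rw [MulEquiv.symm_apply_eq, h1]
  have h3 : (mtE2 η.symm).comp (mtE2 η) = LinearMap.id := by
    apply (Pi.basisFun ℤ ι).ext
    intro i
    rw [Pi.basisFun_apply, LinearMap.comp_apply, mtE2_single, mtE2_ex η.symm h2, MulEquiv.symm_apply_apply, exE2_x]
    rfl
  intro u v huv
  have h4 := congrArg (mtE2 η.symm) huv
  have h5 := LinearMap.congr_fun h3 u
  have h6 := LinearMap.congr_fun h3 v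
  rw [LinearMap.comp_apply] at h5 h6
  rw [h5, h6] at h4
  exact h4

/-- ROW E2b. The number of edges per class does not decrease.
Proof. Let `ex : F ι →* Multiplicative (ι → ℤ)` send `t` to 1 and `x i` to `Pi.single i 1`. For `η` as in `Eq0` let
`M : (ι → ℤ) →ₗ[ℤ] (ι → ℤ)` be the linear map with `M (Pi.single i 1) = ex (η (x i))`; then `ex (η g) = M (ex g)` for all `g`
(two homomorphisms that agree on the generators, `hom_ext'`; use `η t = t`). The same for `η.symm` gives `M'` with `M' ∘ M = id`, so `M`
is injective. If `R k a (k i).1` then `η (x i)` is in the subgroup of `path_mem` for `k'`, `p = (k i).1`, so `ex (η (x i))` is supported on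
the `j` with `R k' a (k' j).1` (here `eq0_R` is used: `R k a (k i).1` gives `R k' a (k i).1`). So `M` restricts to an injective linear
map from `{i // R k a (k i).1} → ℤ` to `{j // R k' a (k' j).1} → ℤ`, and `card_le_of_injective` (strong rank condition) gives
the claim. -/
theorem eq0_cnt_le [Fintype ι] {k k' : ι → ℤ × ℤ} (h : Eq0 k k') (a : ℤ) : cnt k a ≤ cnt k' a := by
  classical
  have hR := eq0_R h
  obtain ⟨η, h1, h2⟩ := h
  have hsupp : ∀ i j, R k a (k i).1 → ¬ R k' a (k' j).1 → Multiplicative.toAdd (exE2 (η (x i))) j = 0 := by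
    intro i j hi hj
    have h3 : tw k' (η (x i)) = t ^ (-(k i).1) * η (x i) * t ^ (k i).2 := by
      rw [← h2, tw_x, map_mul, map_mul, map_zpow, map_zpow, h1]
    have h4 := (path_mem k' (η (x i)) _ _ h3).2
    have h5 : R k' a (k i).1 := hR _ _ hi
    generalize η (x i) = y at h4 ⊢
    induction h4 using Subgroup.closure_induction with
    | mem g hg =>
      rcases hg with hg | ⟨j', hj', hg⟩
      · rw [hg, exE2_t]
        rfl
      · rw [hg, exE2_x]
        have h6 : j ≠ j' := by
          rintro rfl
          exact hj (R.trans h5 hj')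
        exact Pi.single_eq_of_ne h6 1
    | one => rw [map_one]; rfl
    | mul g g' _ _ hg hg' =>
      rw [map_mul]
      have h7 : Multiplicative.toAdd (exE2 g * exE2 g') j = Multiplicative.toAdd (exE2 g) j + Multiplicative.toAdd (exE2 g') j := rfl
      rw [h7, hg, hg', add_zero]
    | inv g _ hg =>
      rw [map_inv]
      have h7 : Multiplicative.toAdd ((exE2 g)⁻¹) j = - Multiplicative.toAdd (exE2 g) j := rfl
      rw [h7, hg, neg_zero]
  unfold cnt
  haveI : Fintype {i : ι // R k a (k i).1} := Fintype.ofFinite _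
  haveI : Fintype {i : ι // R k' a (k' i).1} := Fintype.ofFinite _
  rw [Nat.card_eq_fintype_card, Nat.card_eq_fintype_card]
  let f : ({i : ι // R k a (k i).1} → ℤ) →ₗ[ℤ] ({i : ι // R k' a (k' i).1} → ℤ) :=
    (LinearMap.funLeft ℤ ℤ (Subtype.val : {i : ι // R k' a (k' i).1} → ι)).comp
      ((mtE2 η).comp (Function.ExtendByZero.linearMap ℤ (Subtype.val : {i : ι // R k a (k i).1} → ι)))
  refine card_le_of_injective (R := ℤ) f ?_
  rw [injective_iff_map_eq_zero]
  intro v hv
  have h6 : ∀ i, ¬ R k a (k i).1 → Function.extend (Subtype.val : {i : ι // R k a (k i).1} → ι) v 0 i = 0 := by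
    intro i hi
    rw [Function.extend_apply']
    · rfl
    · rintro ⟨⟨i', hi'⟩, rfl⟩
      exact hi hi'
  have h7 : mtE2 η (Function.extend (Subtype.val : {i : ι // R k a (k i).1} → ι) v 0) = 0 := by
    funext j
    by_cases hj : R k' a (k' j).1
    · exact congrFun hv ⟨j, hj⟩
    · rw [mtE2, Fintype.linearCombination_apply, Finset.sum_apply]
      apply Finset.sum_eq_zero
      intro i _
      by_cases hi : R k a (k i).1
      · rw [Pi.smul_apply, hsupp i j hi hj, smul_zero]
      · rw [h6 i hi, zero_smul]
        rfl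
  have h8 : Function.extend (Subtype.val : {i : ι // R k a (k i).1} → ι) v 0 = 0 := by
    apply mtE2_inj η h1
    rw [h7, map_zero]
  funext i
  have h9 := congrFun h8 i.1
  rw [Subtype.val_injective.extend_apply] at h9
  exact h9

end Pool.Agent.H61.CT
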