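import Mathlib
import Pool.Agent.H61.CT.Rel

/-!
# Elementary moves
-/

set_option autoImplicit false
set_option linter.unusedSectionVars false

namespace Pool.Agent.H61.CT

variable {ι : Type} [DecidableEq ι]

/-- The endomorphism `t -> t`, `x_i -> y i`. -/
def sub' (y : ι → F ι) : F ι →* F ι :=
  FreeGroup.lift (fun o => match o with
    | none => t
    | some i => y i)

@[simp] theorem sub'_t (y : ι → F ι) : sub' y (t : F ι) = t := by
  simp [sub', t]

@[simp] theorem sub'_x (y : ι → F ι) (i : ι) : sub' y (x i : F ι) = y i := by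
  simp [sub', x]

/-- From inverse substitutions to an equivalence of label data. -/
theorem eq0_sub (k k' : ι → ℤ × ℤ) (y z : ι → F ι) (h1 : ∀ i, sub' z (y i) = x i) (h2 : ∀ i, sub' y (z i) = x i)
    (h3 : ∀ i, tw k' (y i) = t ^ (-(k i).1) * y i * t ^ (k i).2) : Eq0 k k' := by
  have e1 : (sub' z).comp (sub' y) = MonoidHom.id (F ι) := by
    apply hom_ext'
    · simp
    · intro i
      simp [h1]
  have e2 : (sub' y).comp (sub' z) = MonoidHom.id (F ι) := by
    apply hom_ext'
    · simp
    · intro i
      simp [h2]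
  refine eq0_of k k' (MonoidHom.toMulEquiv (sub' y) (sub' z) e1 e2) ?_ ?_
  · show sub' y t = t
    simp
  · intro i
    show sub' y (tw k (x i)) = tw k' (sub' y (x i))
    simp [h3]

theorem eq0_flip (k : ι → ℤ × ℤ) (i : ι) : Eq0 k (Function.update k i ((k i).2, (k i).1)) := by
  refine eq0_sub _ _ (fun j => if j = i then (x j)⁻¹ else x j) (fun j => if j = i then (x j)⁻¹ else x j) ?_ ?_ ?_
  · intro j
    by_cases h : j = i <;> simp [h]
  · intro j
    by_cases h : j = i <;> simp [h]
  · intro j
    by_cases h : j = i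
    · subst h
      simp [mul_assoc]
    · simp [h]

theorem eq0_slide (k : ι → ℤ × ℤ) (i j : ι) (hij : i ≠ j) (h : (k j).2 = (k i).1) :
    Eq0 k (Function.update k i ((k j).1, (k i).2)) := by
  have hji : ¬ j = i := fun h => hij h.symm
  refine eq0_sub _ _ (fun l => if l = i then (x j)⁻¹ * x i else x l) (fun l => if l = i then x j * x i else x l) ?_ ?_ ?_
  · intro l
    by_cases hl : l = i <;> simp [hl, hji]
  · intro l
    by_cases hl : l = i <;> simp [hl, hji]
  · intro l
    by_cases hl : l = i
    · subst hl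
      simp [hji, mul_assoc, h]
    · simp [hl]

theorem eq0_perm (k : ι → ℤ × ℤ) (σ : Equiv.Perm ι) : Eq0 k (k ∘ σ) := by
  refine eq0_sub _ _ (fun l => x (σ.symm l)) (fun l => x (σ l)) ?_ ?_ ?_
  · intro l
    simp
  · intro l
    simp
  · intro l
    simp

theorem eq0_extra (k k' : ι → ℤ × ℤ) (J : Set ι) (y : ι → F ι)
    (hy : ∀ i, y i ∈ Subgroup.closure {g : F ι | ∃ j ∈ J, g = x j}) (hJ : ∀ j ∈ J, k j = k' j)
    (h : ∀ i, i ∉ J → tw k' (x i * y i) = t ^ (-(k i).1) * (x i * y i) * t ^ (k i).2) : Eq0 k k' := by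
  classical
  have key : ∀ z : ι → F ι, (∀ j ∈ J, z j = x j) → ∀ g ∈ Subgroup.closure {g : F ι | ∃ j ∈ J, g = x j}, sub' z g = g := by
    intro z hz g hg
    induction hg using Subgroup.closure_induction with
    | mem g hg =>
      obtain ⟨j, hj, rfl⟩ := hg
      simp [hz j hj]
    | one => simp
    | mul a b _ _ ha hb => simp [ha, hb]
    | inv a _ ha => simp [ha]
  refine eq0_sub _ _ (fun l => if l ∈ J then x l else x l * y l) (fun l => if l ∈ J then x l else x l * (y l)⁻¹) ?_ ?_ ?_
  · intro l
    by_cases hl : l ∈ J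
    · simp [hl]
    · have h1 := key (fun l => if l ∈ J then x l else x l * (y l)⁻¹) (by intro j hj; simp [hj]) (y l) (hy l)
      simp only [hl, if_false, map_mul, sub'_x]
      rw [h1]
      simp
  · intro l
    by_cases hl : l ∈ J
    · simp [hl]
    · have h1 := key (fun l => if l ∈ J then x l else x l * y l) (by intro j hj; simp [hj]) (y l) (hy l)
      simp only [hl, if_false, map_mul, map_inv, sub'_x]
      rw [h1]
      simp
  · intro l
    by_cases hl : l ∈ J
    · simp [hl, hJ l hl]
    · simp only [hl, if_false]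
      exact h l hl

end Pool.Agent.H61.CT
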