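import Mathlib
import Pool.Agent.H61.CT.E2
import Pool.Agent.H61.CT.G1

/-!
# Reduction to star form
-/

set_option autoImplicit false
set_option linter.unusedSectionVars false

namespace Pool.Agent.H61.CT

variable {ι : Type} [DecidableEq ι]

/-- ROW G2a. If some edge is bad (its first end is not the centre of its class), then some move makes one bad edge good.
Proof. Let `i₀` be bad and `c = ctr (k i₀).1`. Suppose first that one of these happens for some bad edge `i`:
(A) `(k i).2 = ctr (k i).2`: take `v = ((k i).2, (k i).1)`, `eq0_flip`;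
(B) some good `j` has `(k j).2 = (k i).1`: take `v = ((k j).1, (k i).2)`, `eq0_slide` (`i ≠ j` since `j` is good and `i` is bad);
(C) some good `j` has `(k j).2 = (k i).2`: `eq0_flip` and then `eq0_slide` (`Function.update_idem`), `v = ((k j).1, (k i).1)`.
If none happens, the property `P v := v = c ∨ ∃ j, (k j).1 = c ∧ ctr (k j).1 = (k j).1 ∧ (k j).2 = v` is the same for the two ends of
every edge in the class of `c` (a good edge in the class has first end `c`; a bad edge with an end in `P` would give (A), (B) or (C)),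
so it holds at `(k i₀).1` as `R k c (k i₀).1` and `P c`; but then `i₀` is good or (B) happens for `i₀`. Contradiction.
(For the induction over `Relation.EqvGen` prove: `R k a b → ctr a = c → (P a ↔ P b)`, or use `Relation.EqvGen` induction with
the statement `ctr a = c → (P a ↔ P b)`, where `ctr a = ctr b` by `hc1`.) -/
theorem exists_move (k : ι → ℤ × ℤ) (ctr : ℤ → ℤ) (hc1 : ∀ a b, R k a b → ctr a = ctr b) (hc2 : ∀ a, R k a (ctr a))
    (i₀ : ι) (h0 : (k i₀).1 ≠ ctr (k i₀).1) :
    ∃ (i : ι) (v : ℤ × ℤ), (k i).1 ≠ ctr (k i).1 ∧ v.1 = ctr v.1 ∧ Eq0 k (Function.update k i v) := by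
  by_contra hno
  have hA : ∀ i, (k i).1 ≠ ctr (k i).1 → (k i).2 ≠ ctr (k i).2 := by
    intro i hi h2
    exact hno ⟨i, ((k i).2, (k i).1), hi, h2, eq0_flip k i⟩
  have hB : ∀ i j, (k i).1 ≠ ctr (k i).1 → (k j).1 = ctr (k j).1 → (k j).2 ≠ (k i).1 := by
    intro i j hi hj h2
    have hij : i ≠ j := by
      rintro rfl
      exact hi hj
    exact hno ⟨i, ((k j).1, (k i).2), hi, hj, eq0_slide k i j hij h2⟩
  have hC : ∀ i j, (k i).1 ≠ ctr (k i).1 → (k j).1 = ctr (k j).1 → (k j).2 ≠ (k i).2 := by
    intro i j hi hj h2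
    have hij : i ≠ j := by
      rintro rfl
      exact hi hj
    have h3 := eq0_flip k i
    have h4 := eq0_slide (Function.update k i ((k i).2, (k i).1)) i j hij (by
      rw [Function.update_of_ne hij.symm, Function.update_self]
      exact h2)
    rw [Function.update_of_ne hij.symm, Function.update_self, Function.update_idem] at h4
    exact hno ⟨i, ((k j).1, (k i).1), hi, hj, h3.trans h4⟩
  obtain ⟨c, hc⟩ : ∃ c, c = ctr (k i₀).1 := ⟨_, rfl⟩
  have hcR : R k (k i₀).1 c := by
    rw [hc]
    exact hc2 _
  have hcc : c = ctr c := by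
    rw [← hc1 _ _ hcR]
    exact hc
  have main : ∀ a b, R k a b → ctr a = c →
      ((a = c ∨ ∃ j, (k j).1 = c ∧ (k j).2 = a) ↔ (b = c ∨ ∃ j, (k j).1 = c ∧ (k j).2 = b)) := by
    intro a b hab
    unfold R at hab
    induction hab with
    | rel a b hab =>
      obtain ⟨i, rfl, rfl⟩ := hab
      intro hctr
      have hctr2 : ctr (k i).2 = c := by
        rw [← hc1 _ _ (R.edge k i)]
        exact hctr
      by_cases hi : (k i).1 = ctr (k i).1
      · have h1 : (k i).1 = c := by rw [hi, hctr]
        exact ⟨fun _ => Or.inr ⟨i, h1, rfl⟩, fun _ => Or.inl h1⟩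
      · constructor
        · rintro (h1 | ⟨j, hj1, hj2⟩)
          · exact absurd (by rw [hctr, h1]) hi
          · exact absurd hj2 (hB i j hi (by rw [hj1]; exact hcc))
        · rintro (h1 | ⟨j, hj1, hj2⟩)
          · exact absurd (by rw [hctr2, h1]) (hA i hi)
          · exact absurd hj2 (hC i j hi (by rw [hj1]; exact hcc))
    | refl a => exact fun _ => Iff.rfl
    | symm a b hab ih =>
      intro hctr
      exact (ih (by rw [hc1 a b hab]; exact hctr)).symm
    | trans a b d hab hbd ih1 ih2 =>
      intro hctr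
      exact (ih1 hctr).trans (ih2 (by rw [← hc1 a b hab]; exact hctr))
  rcases (main _ _ hcR hc.symm).2 (Or.inl rfl) with h1 | ⟨j, hj1, hj2⟩
  · exact h0 (by rw [← hc]; exact h1)
  · exact hB i₀ j h0 (by rw [hj1]; exact hcc) hj2

/-- ROW G2b. Star form. Proof: strong induction on the number of bad edges `(Finset.univ.filter (fun i => (k i).1 ≠ ctr (k i).1)).card`
with `exists_move`; the hypotheses `hc1 hc2` pass to the new `k` by `eq0_R` (both directions with `Eq0.symm`). -/
theorem exists_star [Fintype ι] (k : ι → ℤ × ℤ) (ctr : ℤ → ℤ) (hc1 : ∀ a b, R k a b → ctr a = ctr b) (hc2 : ∀ a, R k a (ctr a)) :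
    ∃ k' : ι → ℤ × ℤ, Eq0 k k' ∧ ∀ i, (k' i).1 = ctr (k' i).1 := by
  classical
  have main : ∀ n : ℕ, ∀ k1 : ι → ℤ × ℤ, Eq0 k k1 →
      (Finset.univ.filter (fun i => (k1 i).1 ≠ ctr (k1 i).1)).card = n →
      ∃ k' : ι → ℤ × ℤ, Eq0 k k' ∧ ∀ i, (k' i).1 = ctr (k' i).1 := by
    intro n
    induction n using Nat.strong_induction_on with
    | _ n ih =>
      intro k1 hk1 hn
      by_cases hall : ∀ i, (k1 i).1 = ctr (k1 i).1
      · exact ⟨k1, hk1, hall⟩
      · obtain ⟨i₀, h0⟩ := not_forall.1 hall
        have hc1' : ∀ a b, R k1 a b → ctr a = ctr b := fun a b hab => hc1 a b (eq0_R hk1.symm a b hab)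
        have hc2' : ∀ a, R k1 a (ctr a) := fun a => eq0_R hk1 _ _ (hc2 a)
        obtain ⟨i, v, hi, hv, he⟩ := exists_move k1 ctr hc1' hc2' i₀ h0
        refine ih _ ?_ (Function.update k1 i v) (hk1.trans he) rfl
        rw [← hn]
        apply Finset.card_lt_card
        have hsub : (Finset.univ.filter (fun j => (Function.update k1 i v j).1 ≠ ctr (Function.update k1 i v j).1)) ⊆
            (Finset.univ.filter (fun j => (k1 j).1 ≠ ctr (k1 j).1)) := by
          intro j hj
          rw [Finset.mem_filter] at hj ⊢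
          refine ⟨Finset.mem_univ _, ?_⟩
          by_cases hji : j = i
          · rw [hji]
            exact hi
          · have h2 := hj.2
            rw [Function.update_of_ne hji] at h2
            exact h2
        refine (Finset.ssubset_iff_of_subset hsub).2 ⟨i, ?_, ?_⟩
        · rw [Finset.mem_filter]
          exact ⟨Finset.mem_univ _, hi⟩
        · rw [Finset.mem_filter]
          intro h2
          apply h2.2
          rw [Function.update_self]
          exact hv
  exact main _ k (Eq0.refl k) rfl

end Pool.Agent.H61.CT
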