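import Mathlib
import Pool.Agent.H61.CT.G1

/-!
# A permutation between two star forms
-/

set_option autoImplicit false
set_option linter.unusedSectionVars false

namespace Pool.Agent.H61.CT

variable {ι : Type} [DecidableEq ι]

/-- ROW G3a. A permutation that respects the fibres of `ctr ∘ β` and `ctr ∘ β'` and takes the section `s` to the section `s'`.
Proof. For each `c` use `Finset.exists_equiv_extend_of_card_eq` with `α = {i // ctr (β i) = c}`,
`t = Finset.univ.filter (fun i => ctr (β' i) = c)`, the finset of those `i` with `β i ≠ ctr (β i) ∧ s (β i) = i`, and `f i = s' (β i)`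
(injective on it as `β' (s' y) = y`). Glue with `Equiv.sigmaFiberEquiv` / `Equiv.ofFiberEquiv`. -/
theorem exists_perm [Fintype ι] (β β' : ι → ℤ) (ctr : ℤ → ℤ) (s s' : ℤ → ι) (hs : ∀ y, y ≠ ctr y → β (s y) = y)
    (hs' : ∀ y, y ≠ ctr y → β' (s' y) = y)
    (hcnt : ∀ c, Nat.card {i // ctr (β i) = c} = Nat.card {i // ctr (β' i) = c}) :
    ∃ σ : Equiv.Perm ι, (∀ y, y ≠ ctr y → σ (s y) = s' y) ∧ ∀ i, ctr (β' (σ i)) = ctr (β i) := by
  classical
  -- the fibre equivalences
  have key : ∀ c : ℤ, ∃ e : {i // ctr (β i) = c} ≃ {i // ctr (β' i) = c},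
      ∀ y, y ≠ ctr y → ∀ h : ctr (β (s y)) = c, ((e ⟨s y, h⟩ : {i // ctr (β' i) = c}) : ι) = s' y := by
    intro c
    have hcard : Fintype.card {i // ctr (β i) = c} = (Finset.univ.filter (fun i => ctr (β' i) = c)).card := by
      have h1 := hcnt c
      rw [Nat.card_eq_fintype_card, Nat.card_eq_fintype_card] at h1
      rw [h1, Fintype.card_subtype]
    let S : Finset {i // ctr (β i) = c} :=
      Finset.univ.filter (fun i => β i.1 ≠ ctr (β i.1) ∧ s (β i.1) = i.1)
    let f : {i // ctr (β i) = c} → ι := fun i => s' (β i.1)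
    have hf1 : S.image f ⊆ Finset.univ.filter (fun i => ctr (β' i) = c) := by
      intro a ha
      obtain ⟨i, hi, rfl⟩ := Finset.mem_image.1 ha
      have hi' := (Finset.mem_filter.1 hi).2
      refine Finset.mem_filter.2 ⟨Finset.mem_univ _, ?_⟩
      change ctr (β' (s' (β i.1))) = c
      rw [hs' _ hi'.1]
      exact i.2
    have hf2 : Set.InjOn f S := by
      intro a ha b hb hab
      have ha' := (Finset.mem_filter.1 ha).2
      have hb' := (Finset.mem_filter.1 hb).2
      have hab' : s' (β a.1) = s' (β b.1) := hab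
      have h2 : β a.1 = β b.1 := by
        rw [← hs' _ ha'.1, ← hs' _ hb'.1, hab']
      apply Subtype.ext
      rw [← ha'.2, ← hb'.2, h2]
    obtain ⟨g, hg⟩ := Finset.exists_equiv_extend_of_card_eq hcard hf1 hf2
    refine ⟨g.trans (Equiv.subtypeEquivRight (fun i => by simp)), ?_⟩
    intro y hy h
    have h3 := hg ⟨s y, h⟩ (Finset.mem_filter.2 ⟨Finset.mem_univ _, by
      change β (s y) ≠ ctr (β (s y)) ∧ s (β (s y)) = s y
      rw [hs y hy]
      exact ⟨hy, rfl⟩⟩)
    change ((g ⟨s y, h⟩ : {x // x ∈ Finset.univ.filter (fun i => ctr (β' i) = c)}) : ι) = s' y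
    rw [h3]
    change s' (β (s y)) = s' y
    rw [hs y hy]
  choose e he using key
  let σ : ι ≃ ι := Equiv.ofFiberEquiv (f := fun i => ctr (β i)) (g := fun i => ctr (β' i)) e
  refine ⟨σ, ?_, ?_⟩
  · intro y hy
    change ((e (ctr (β (s y)))) ⟨s y, rfl⟩ : ι) = s' y
    exact he _ y hy rfl
  · intro i
    exact ((e (ctr (β i))) ⟨i, rfl⟩).2

end Pool.Agent.H61.CT
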