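import Mathlib
import Pool.Agent.H61.CT.G1

/-!
# Star forms whose sections agree
-/

set_option autoImplicit false
set_option linter.unusedSectionVars false

namespace Pool.Agent.H61.CT

variable {ι : Type} [DecidableEq ι]

/-- ROW G3b. Star forms whose sections agree. Apply `eq0_extra` with `J = {i | ∃ y, y ≠ ctr y ∧ i = s y}` and
`y i = (g (β' i))⁻¹ * g (β i)`, where `g v = if v = ctr v then 1 else x (s v)`; note
`tw k' (g v) = t ^ (-ctr v) * g v * t ^ v` for every `v` (if `v = ctr v` it is `1 = t^(-v) * 1 * t^v`). -/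
theorem star_extra (β β' : ι → ℤ) (ctr : ℤ → ℤ) (s : ℤ → ι) (hs : ∀ y, y ≠ ctr y → β (s y) = y)
    (hs' : ∀ y, y ≠ ctr y → β' (s y) = y) (hctr : ∀ i, ctr (β' i) = ctr (β i)) :
    Eq0 (fun i => (ctr (β i), β i)) (fun i => (ctr (β' i), β' i)) := by
  classical
  let g : ℤ → F ι := fun v => if v = ctr v then 1 else x (s v)
  have hg : ∀ v, tw (fun i => (ctr (β' i), β' i)) (g v) = t ^ (-ctr v) * g v * t ^ v := by
    intro v
    by_cases hv : v = ctr v
    · have h1 : g v = 1 := if_pos hv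
      rw [h1, map_one, ← hv, mul_one, ← zpow_add]
      simp
    · have h1 : g v = x (s v) := if_neg hv
      rw [h1, tw_x]
      simp only
      rw [hs' v hv]
  have hgJ : ∀ v, g v ∈ Subgroup.closure {a : F ι | ∃ j ∈ {i | ∃ y, y ≠ ctr y ∧ i = s y}, a = x j} := by
    intro v
    by_cases hv : v = ctr v
    · have h1 : g v = 1 := if_pos hv
      rw [h1]
      exact one_mem _
    · have h1 : g v = x (s v) := if_neg hv
      rw [h1]
      exact Subgroup.subset_closure ⟨s v, ⟨v, hv, rfl⟩, rfl⟩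
  refine eq0_extra _ _ {i | ∃ y, y ≠ ctr y ∧ i = s y} (fun i => (g (β' i))⁻¹ * g (β i)) ?_ ?_ ?_
  · intro i
    exact mul_mem (inv_mem (hgJ _)) (hgJ _)
  · rintro j ⟨y, hy, rfl⟩
    rw [hs y hy, hs' y hy]
  · intro i _
    rw [map_mul, map_mul, map_inv, hg, hg, tw_x, hctr i]
    simp only [mul_inv_rev, zpow_neg, inv_inv, mul_assoc]
    simp

end Pool.Agent.H61.CT
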