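import Mathlib
import Pool.Agent.H61.CT.G2
import Pool.Agent.H61.CT.G3

/-!
# Equal classes and counts imply equivalence
-/

set_option autoImplicit false
set_option linter.unusedSectionVars false

namespace Pool.Agent.H61.CT

variable {ι : Type} [DecidableEq ι]

theorem eq0_of_R [Fintype ι] (k k' : ι → ℤ × ℤ) (hR : ∀ a b, R k a b ↔ R k' a b) (hcnt : ∀ a, cnt k a = cnt k' a) : Eq0 k k' := by
  classical
  let st : Setoid ℤ := ⟨R k, fun a => R.refl k a, fun h => h.symm, fun h h' => h.trans h'⟩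
  let ctr : ℤ → ℤ := fun a => (Quotient.mk st a).out
  have hc1 : ∀ a b, R k a b → ctr a = ctr b := by
    intro a b h
    show (Quotient.mk st a).out = (Quotient.mk st b).out
    rw [Quotient.sound (s := st) h]
  have hc2 : ∀ a, R k a (ctr a) := by
    intro a
    exact R.symm (Quotient.mk_out (s := st) a)
  obtain ⟨k₁, e1, s1⟩ := exists_star k ctr hc1 hc2
  obtain ⟨k₂, e2, s2⟩ := exists_star k' ctr (fun a b h => hc1 a b ((hR a b).2 h)) (fun a => (hR _ _).1 (hc2 a))
  have r1 : ∀ a b, R k a b ↔ R k₁ a b := fun a b => ⟨eq0_R e1 a b, eq0_R e1.symm a b⟩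
  have r2 : ∀ a b, R k' a b ↔ R k₂ a b := fun a b => ⟨eq0_R e2 a b, eq0_R e2.symm a b⟩
  have c1 : ∀ a, cnt k a = cnt k₁ a := fun a => le_antisymm (eq0_cnt_le e1 a) (eq0_cnt_le e1.symm a)
  have c2 : ∀ a, cnt k' a = cnt k₂ a := fun a => le_antisymm (eq0_cnt_le e2 a) (eq0_cnt_le e2.symm a)
  have e3 : Eq0 k₁ k₂ := by
    refine star_star k₁ k₂ ctr (fun a b h => hc1 a b ((r1 a b).2 h)) (fun a => (r1 _ _).1 (hc2 a)) ?_ ?_ s1 s2
    · intro a b
      rw [← r1, hR, r2]
    · intro a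
      rw [← c1, hcnt, c2]
  exact (e1.trans e3).trans e2.symm

end Pool.Agent.H61.CT
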