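import Mathlib
import Pool.Agent.H61.CT.D
import Pool.Agent.H61.CT.SC

/-!
# The classification
-/

set_option autoImplicit false
set_option linter.unusedSectionVars false

namespace Pool.Agent.H61.CT

variable {ι : Type} [DecidableEq ι]

/-- `t -> t^ε`, `x_i -> x_i`. -/
def sg (ε : ℤ) : F ι →* F ι :=
  FreeGroup.lift (fun o => match o with
    | none => t ^ ε
    | some i => x i)

@[simp] theorem sg_t (ε : ℤ) : sg ε (t : F ι) = t ^ ε := by
  simp [sg, t]

@[simp] theorem sg_x (ε : ℤ) (i : ι) : sg ε (x i : F ι) = x i := by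
  simp [sg, x]

theorem sg_sg (ε : ℤ) (h : ε = 1 ∨ ε = -1) (g : F ι) : sg ε (sg ε g) = g := by
  have h1 : (sg ε : F ι →* F ι).comp (sg ε) = MonoidHom.id (F ι) := by
    apply hom_ext'
    · simp only [MonoidHom.comp_apply, sg_t, map_zpow, MonoidHom.id_apply]
      rw [← zpow_mul]
      rcases h with h | h <;> rw [h] <;> simp
    · intro i
      simp
  exact DFunLike.congr_fun h1 g

/-- `sg` as an automorphism. -/
def sgE (ε : ℤ) (h : ε = 1 ∨ ε = -1) : F ι ≃* F ι where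
  toFun := sg ε
  invFun := sg ε
  left_inv := sg_sg ε h
  right_inv := sg_sg ε h
  map_mul' := map_mul _

theorem sgE_apply (ε : ℤ) (h : ε = 1 ∨ ε = -1) (g : F ι) : sgE ε h g = sg ε g := rfl

/-- The relabelled data. -/
def rl (a ε : ℤ) (k : ι → ℤ × ℤ) : ι → ℤ × ℤ := fun i => (a + ε * (k i).1, a + ε * (k i).2)

theorem tw_rl (a ε : ℤ) (k : ι → ℤ × ℤ) (g : F ι) : t ^ a * tw (rl a ε k) (sg ε g) * t ^ (-a) = sg ε (tw k g) := by
  have h1 : ((MulAut.conj ((t : F ι) ^ a)).toMonoidHom.comp ((tw (rl a ε k)).comp (sg ε)) : F ι →* F ι) = (sg ε).comp (tw k) := by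
    apply hom_ext'
    · show t ^ a * tw (rl a ε k) (sg ε t) * (t ^ a)⁻¹ = sg ε (tw k t)
      rw [sg_t, tw_t, sg_t, map_zpow, tw_t]
      group
    · intro i
      show t ^ a * tw (rl a ε k) (sg ε (x i)) * (t ^ a)⁻¹ = sg ε (tw k (x i))
      rw [sg_x, tw_x, tw_x, map_mul, map_mul, map_zpow, map_zpow, sg_t, sg_x]
      simp only [rl]
      have h2 : (t : F ι) ^ (-(a + ε * (k i).1)) = t ^ (-a) * (t ^ ε) ^ (-(k i).1) := by
        rw [← zpow_mul, ← zpow_add]
        congr 1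
        ring
      have h3 : (t : F ι) ^ (a + ε * (k i).2) = (t ^ ε) ^ (k i).2 * t ^ a := by
        rw [← zpow_mul, ← zpow_add]
        congr 1
        ring
      rw [h2, h3]
      group
  have h2 := DFunLike.congr_fun h1 g
  rw [zpow_neg]
  exact h2

theorem R_rl_of (a ε : ℤ) (k : ι → ℤ × ℤ) (p q : ℤ) (h : R k p q) : R (rl a ε k) (a + ε * p) (a + ε * q) := by
  induction h with
  | rel p q h =>
    obtain ⟨i, h1, h2⟩ := h
    rw [← h1, ← h2]
    exact R.edge (rl a ε k) i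
  | refl p => exact R.refl _ _
  | symm p q _ ih => exact ih.symm
  | trans p q r _ _ ih1 ih2 => exact ih1.trans ih2

theorem rl_rl (a ε : ℤ) (h : ε = 1 ∨ ε = -1) (k : ι → ℤ × ℤ) : rl (-(ε * a)) ε (rl a ε k) = k := by
  funext i
  have h1 : ∀ y : ℤ, -(ε * a) + ε * (a + ε * y) = y := by
    intro y
    rcases h with h | h <;> rw [h] <;> ring
  exact Prod.ext (h1 _) (h1 _)

theorem R_rl (a ε : ℤ) (h : ε = 1 ∨ ε = -1) (k : ι → ℤ × ℤ) (p q : ℤ) : R (rl a ε k) (a + ε * p) (a + ε * q) ↔ R k p q := by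
  constructor
  · intro h1
    have h2 := R_rl_of (-(ε * a)) ε (rl a ε k) _ _ h1
    rw [rl_rl a ε h] at h2
    have h3 : ∀ y : ℤ, -(ε * a) + ε * (a + ε * y) = y := by
      intro y
      rcases h with h | h <;> rw [h] <;> ring
    rw [h3, h3] at h2
    exact h2
  · exact R_rl_of a ε k p q

theorem cnt_rl (a ε : ℤ) (h : ε = 1 ∨ ε = -1) (k : ι → ℤ × ℤ) (p : ℤ) : cnt (rl a ε k) (a + ε * p) = cnt k p := by
  unfold cnt
  apply Nat.card_congr
  apply Equiv.subtypeEquivRight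
  intro i
  exact R_rl a ε h k p (k i).1

theorem exists_pre (a ε : ℤ) (h : ε = 1 ∨ ε = -1) (y : ℤ) : ∃ p : ℤ, y = a + ε * p := by
  refine ⟨ε * (y - a), ?_⟩
  rcases h with h | h <;> rw [h] <;> ring

/-- Zero data. -/
theorem zero_of_tw (k : ι → ℤ × ℤ) (h : ∀ g : F ι, tw k g = g) : ∀ i, k i = (0, 0) := by
  intro i
  have h1 := h (x i)
  rw [tw_x] at h1
  obtain ⟨h2, h3⟩ := int_of_x i _ _ h1
  exact Prod.ext h2 h3

/-- Conjugacy after composing with a sign change and an inner automorphism. -/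
theorem eq0_of_conj (k k' : ι → ℤ × ℤ) (θ : F ι ≃* F ι) (hθ : ∀ g, θ (tw k g) = tw k' (θ g)) (u : F ι) (ε a : ℤ)
    (hε : ε = 1 ∨ ε = -1) (h1 : θ t = u * t ^ ε * u⁻¹) (h2 : tw k' u = u * t ^ a) : Eq0 (rl a ε k) k' := by
  have hεε : ε * ε = 1 := by
    rcases hε with h | h <;> rw [h] <;> norm_num
  have hθt : ∀ n : ℤ, θ ((t ^ ε) ^ n) = u * t ^ n * u⁻¹ := by
    intro n
    rw [map_zpow, map_zpow, h1, conj_zpow, ← zpow_mul, hεε, zpow_one, conj_zpow]
  refine ⟨((sgE ε hε).trans θ).trans (MulAut.conj u⁻¹), ?_, ?_⟩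
  · show u⁻¹ * θ (sg ε t) * (u⁻¹)⁻¹ = t
    have h3 := hθt 1
    rw [zpow_one, zpow_one] at h3
    rw [sg_t, h3]
    group
  · intro g
    show u⁻¹ * θ (sg ε (tw (rl a ε k) g)) * (u⁻¹)⁻¹ = tw k' (u⁻¹ * θ (sg ε g) * (u⁻¹)⁻¹)
    have h3 : sg ε (tw (rl a ε k) g) = (t ^ ε) ^ (-a) * tw k (sg ε g) * (t ^ ε) ^ a := by
      have h4 := tw_rl a ε k (sg ε g)
      rw [sg_sg ε hε] at h4
      have h5 := congrArg (sg ε) h4
      rw [sg_sg ε hε, map_mul, map_mul, map_zpow, map_zpow, sg_t] at h5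
      rw [← h5]
      group
    rw [h3, map_mul, map_mul, hθt, hθt, hθ]
    simp only [map_mul, map_inv, h2]
    group

/-- The converse construction. -/
theorem conj_of_eq0 (k k' : ι → ℤ × ℤ) (u : F ι) (ε a : ℤ)
    (hε : ε = 1 ∨ ε = -1) (h2 : tw k' u = u * t ^ a) (h : Eq0 (rl a ε k) k') :
    ∃ θ : F ι ≃* F ι, ∀ g, θ (tw k g) = tw k' (θ g) := by
  obtain ⟨η, e1, e2⟩ := h
  refine ⟨((sgE ε hε).trans η).trans (MulAut.conj u), ?_⟩
  intro g
  show u * η (sg ε (tw k g)) * u⁻¹ = tw k' (u * η (sg ε g) * u⁻¹)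
  rw [← tw_rl a ε k g, map_mul, map_mul, map_zpow, map_zpow, e1, e2, map_mul, map_mul, map_inv, h2]
  group

/-- The classification. -/
theorem classification [Fintype ι] (k k' : ι → ℤ × ℤ) :
    (∃ θ : F ι ≃* F ι, ∀ g, θ (tw k g) = tw k' (θ g)) ↔
      ∃ a ε : ℤ, (ε = 1 ∨ ε = -1) ∧ R k' 0 a ∧ (∀ p q, R k p q ↔ R k' (a + ε * p) (a + ε * q)) ∧
        ∀ p, cnt k p = cnt k' (a + ε * p) := by
  constructor
  · rintro ⟨θ, hθ⟩
    by_cases hk : ∀ i, k i = (0, 0)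
    · have h0 : k = 0 := funext hk
      have h1 : ∀ g : F ι, tw k' g = g := by
        intro g
        have h2 := hθ (θ.symm g)
        rw [h0, tw_zero, MulEquiv.apply_symm_apply] at h2
        exact h2.symm
      have h2 : k' = 0 := funext (zero_of_tw k' h1)
      refine ⟨0, 1, Or.inl rfl, R.refl _ _, ?_, ?_⟩
      · intro p q
        rw [h0, h2]
        simp
      · intro p
        rw [h0, h2]
        simp
    · push Not at hk
      obtain ⟨i, hi⟩ := hk
      obtain ⟨u, f, a, hf, h1, h2⟩ := image_t k k' θ hθ i hi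
      have h3 := eq0_of_conj k k' θ hθ u f a hf h1 h2
      refine ⟨a, f, hf, ?_, ?_, ?_⟩
      · exact (path_mem k' u 0 a (by rw [h2]; simp)).1
      · intro p q
        rw [← R_rl a f hf k p q]
        exact ⟨eq0_R h3 _ _, eq0_R h3.symm _ _⟩
      · intro p
        rw [← cnt_rl a f hf k p]
        exact le_antisymm (eq0_cnt_le h3 _) (eq0_cnt_le h3.symm _)
  · rintro ⟨a, ε, hε, h0, h1, h2⟩
    obtain ⟨u, hu⟩ := exists_path k' 0 a h0
    have hu' : tw k' u = u * t ^ a := by rw [hu]; simp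
    apply conj_of_eq0 k k' u ε a hε hu'
    apply eq0_of_R
    · intro p' q'
      obtain ⟨p, hp⟩ := exists_pre a ε hε p'
      obtain ⟨q, hq⟩ := exists_pre a ε hε q'
      rw [hp, hq, R_rl a ε hε, h1]
    · intro p'
      obtain ⟨p, hp⟩ := exists_pre a ε hε p'
      rw [hp, cnt_rl a ε hε, h2]

end Pool.Agent.H61.CT
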