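import Mathlib
import Pool.Agent.H61.CT.H
import Pool.Agent.H28.IP.Re2

/-!
# The conjugacy algorithm: definitions
-/

set_option autoImplicit false
set_option linter.unusedSectionVars false

namespace Pool.Agent.H61.CT

open Pool.Agent.H28.IP (Re vz)

/-- The free group of rank `m + 1`. -/
abbrev FN (m : ℕ) := FreeGroup (Fin (m + 1))

/-- Words. -/
abbrev Wd (m : ℕ) := List (Fin (m + 1) × Bool)

/-- The endomorphism given by a list of words. -/
def E (m : ℕ) (a : List (Wd m)) : FN m →* FN m :=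
  FreeGroup.lift (fun j : Fin (m + 1) => FreeGroup.mk (a.getD j.val []))

/-- Substitution. -/
def sb (m : ℕ) (A : List (Wd m)) (w : Wd m) : Wd m :=
  w.flatMap (fun l => cond l.2 (A.getD l.1.val []) (FreeGroup.invRev (A.getD l.1.val [])))

/-- Composition of endomorphisms given by lists of words; the words of the result are reduced. -/
def cmp (m : ℕ) (A B : List (Wd m)) : List (Wd m) :=
  (List.finRange (m + 1)).map (fun j => FreeGroup.reduce (sb m A (B.getD j.val [])))

/-- The identity. -/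
def idl (m : ℕ) : List (Wd m) := (List.finRange (m + 1)).map (fun j => [(j, true)])

/-- The twist on `FN m`, with `t = x_0` and `x_i` the generator with number `i + 1`. -/
def twF {m : ℕ} (k : Fin m → ℤ × ℤ) : FN m →* FN m :=
  FreeGroup.lift (fun j => Fin.cases (motive := fun _ => FN m) (FreeGroup.of 0)
    (fun i => FreeGroup.of 0 ^ (-(k i).1) * FreeGroup.of i.succ * FreeGroup.of 0 ^ (k i).2) j)

/-- Pairs of natural numbers stand for integers (`vz (u, v) = u - v`). -/
abbrev Zp := ℕ × ℕ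

/-- Lists of pairs of integers. -/
abbrev KL := List (Zp × Zp)

/-- The label data of a list. -/
def kof (m : ℕ) (L : KL) : Fin m → ℤ × ℤ :=
  fun i => (vz (L.getD i.val ((0, 0), (0, 0))).1, vz (L.getD i.val ((0, 0), (0, 0))).2)

/-- The word `t^(vz u)`. -/
def zw (m : ℕ) (u : Zp) : Wd m := List.replicate u.1 (0, true) ++ List.replicate u.2 (0, false)

/-- The words of the twist of a list. -/
def TW (m : ℕ) (L : KL) : List (Wd m) :=
  [(0, true)] :: (List.finRange m).map (fun i =>
    zw m ((L.getD i.val ((0, 0), (0, 0))).1.2, (L.getD i.val ((0, 0), (0, 0))).1.1) ++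
      (i.succ, true) :: zw m (L.getD i.val ((0, 0), (0, 0))).2)

/-- Star form. -/
def StarL (L : KL) : Prop :=
  ∀ e ∈ L, ∀ f ∈ L, (vz e.2 = vz f.2 → vz e.1 = vz f.1) ∧ (vz e.2 = vz f.1 → vz e.1 = vz f.1)

/-- The centre of the class of `p`. -/
def cenL (L : KL) (p : Zp) : Zp := L.foldr (fun e acc => if vz e.2 = vz p then e.1 else acc) p

/-- The number of edges in the class of `p`. -/
def cntL (L : KL) (p : Zp) : ℕ := L.foldr (fun e acc => if vz e.1 = vz (cenL L p) then acc + 1 else acc) 0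

/-- The map `p -> a + p` (for `true`) or `p -> a - p` (for `false`). -/
def af (a : Zp) (s : Bool) (p : Zp) : Zp := if s = true then (a.1 + p.1, a.2 + p.2) else (a.1 + p.2, a.2 + p.1)

/-- Candidates for the isometry. -/
def cand (L : KL) : List (Zp × Bool) :=
  (((0, 0), true) :: L.flatMap (fun e => [(e.1, true), (e.2, true)])) ++
    (((0, 0), false) :: L.flatMap (fun e => [(e.1, false), (e.2, false)]))

/-- No candidate isometry matches the two lists. -/
def NCL (x : KL × KL) : Prop :=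
  ∀ c ∈ cand x.2, ¬ (vz (cenL x.2 (0, 0)) = vz (cenL x.2 c.1)) ∨
    (∃ p : Zp × Zp, ¬ (vz (cenL x.1 p.1) = vz (cenL x.1 p.2) ↔
      vz (cenL x.2 (af c.1 c.2 p.1)) = vz (cenL x.2 (af c.1 c.2 p.2)))) ∨
    ∃ p : Zp, cntL x.1 p ≠ cntL x.2 (af c.1 c.2 p)

/-- The criterion. -/
def Crit {m : ℕ} (k k' : Fin m → ℤ × ℤ) : Prop :=
  ∃ a ε : ℤ, (ε = 1 ∨ ε = -1) ∧ R k' 0 a ∧ (∀ p q, R k p q ↔ R k' (a + ε * p) (a + ε * q)) ∧
    ∀ p, cnt k p = cnt k' (a + ε * p)

end Pool.Agent.H61.CT
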