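import Mathlib
import Pool.Agent.H61.CT.J0

/-!
# Primitive recursive operations on words
-/

set_option autoImplicit false
set_option linter.unusedSectionVars false

namespace Pool.Agent.H61.CT

theorem prim_reduceF (m : ℕ) : Primrec (FreeGroup.reduce : Wd m → Wd m) := by
  have hstep : Primrec₂ fun (_ : Wd m) (b : (Fin (m + 1) × Bool) × Wd m × Wd m) =>
      (List.casesOn (motive := fun _ => Wd m) b.2.2 [b.1] fun hd2 tl2 =>
        if b.1.1 = hd2.1 ∧ b.1.2 = !hd2.2 then tl2 else b.1 :: hd2 :: tl2) := by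
    refine Primrec.list_casesOn
      (f := fun a : Wd m × ((Fin (m + 1) × Bool) × Wd m × Wd m) => a.2.2.2)
      (g := fun a => [a.2.1])
      (h := fun a u => if a.2.1.1 = u.1.1 ∧ a.2.1.2 = !u.1.2 then u.2 else a.2.1 :: u.1 :: u.2)
      ?_ ?_ ?_
    · exact Primrec.snd.comp (Primrec.snd.comp Primrec.snd)
    · exact Primrec.list_cons.comp (Primrec.fst.comp Primrec.snd) (Primrec.const [])
    · have h1 : Primrec fun z : (Wd m × ((Fin (m + 1) × Bool) × Wd m × Wd m)) ×
          ((Fin (m + 1) × Bool) × Wd m) =>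
          z.1.2.1 := Primrec.fst.comp (Primrec.snd.comp Primrec.fst)
      have h2 : Primrec fun z : (Wd m × ((Fin (m + 1) × Bool) × Wd m × Wd m)) ×
          ((Fin (m + 1) × Bool) × Wd m) =>
          z.2.1 := Primrec.fst.comp Primrec.snd
      have h3 : Primrec fun z : (Wd m × ((Fin (m + 1) × Bool) × Wd m × Wd m)) ×
          ((Fin (m + 1) × Bool) × Wd m) =>
          z.2.2 := Primrec.snd.comp Primrec.snd
      refine Primrec.ite ?_ h3 (Primrec.list_cons.comp h1 (Primrec.list_cons.comp h2 h3))
      exact PrimrecPred.and (Primrec.eq.comp (Primrec.fst.comp h1) (Primrec.fst.comp h2))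
        (Primrec.eq.comp (Primrec.snd.comp h1) (Primrec.not.comp (Primrec.snd.comp h2)))
  refine (Primrec.list_rec (f := fun w : Wd m => w) (g := fun _ => ([] : Wd m))
    (h := fun (_ : Wd m) (b : (Fin (m + 1) × Bool) × Wd m × Wd m) =>
      (List.casesOn (motive := fun _ => Wd m) b.2.2 [b.1] fun hd2 tl2 =>
        if b.1.1 = hd2.1 ∧ b.1.2 = !hd2.2 then tl2 else b.1 :: hd2 :: tl2))
    Primrec.id (Primrec.const []) hstep).of_eq fun w => ?_
  induction w with
  | nil => rfl
  | cons hd tl ih =>
    rw [FreeGroup.reduce.cons, ← ih]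

theorem prim_invRevF (m : ℕ) : Primrec (FreeGroup.invRev : Wd m → Wd m) := by
  refine Primrec.list_reverse.comp (Primrec.list_map Primrec.id ?_)
  exact (Primrec.fst.comp Primrec.snd).pair (Primrec.not.comp (Primrec.snd.comp Primrec.snd))

theorem prim_sb (m : ℕ) : Primrec₂ (sb m) := by
  refine Primrec.list_flatMap (f := fun a : List (Wd m) × Wd m => a.2)
    (g := fun a l => cond l.2 (a.1.getD l.1.val []) (FreeGroup.invRev (a.1.getD l.1.val [])))
    Primrec.snd ?_
  have h1 : Primrec fun z : (List (Wd m) × Wd m) × (Fin (m + 1) × Bool) =>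
      z.1.1.getD z.2.1.val [] :=
    (Primrec.list_getD ([] : Wd m)).comp (Primrec.fst.comp Primrec.fst)
      (Primrec.fin_val.comp (Primrec.fst.comp Primrec.snd))
  exact Primrec.cond (Primrec.snd.comp Primrec.snd) h1 ((prim_invRevF m).comp h1)

/-- Composition is primitive recursive. -/
theorem prim_cmp (m : ℕ) : Primrec₂ (cmp m) := by
  refine Primrec.list_map (f := fun _ : List (Wd m) × List (Wd m) => List.finRange (m + 1))
    (g := fun a j => FreeGroup.reduce (sb m a.1 (a.2.getD j.val [])))
    (Primrec.const (List.finRange (m + 1))) ?_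
  have h1 : Primrec fun z : (List (Wd m) × List (Wd m)) × Fin (m + 1) =>
      z.1.2.getD z.2.val [] :=
    (Primrec.list_getD ([] : Wd m)).comp (Primrec.snd.comp Primrec.fst)
      (Primrec.fin_val.comp Primrec.snd)
  exact (prim_reduceF m).comp ((prim_sb m).comp (Primrec.fst.comp Primrec.fst) h1)

end Pool.Agent.H61.CT
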