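import Mathlib
import Pool.Agent.H61.CT.J0

/-!
# Lists of words and endomorphisms
-/

set_option autoImplicit false
set_option linter.unusedSectionVars false

namespace Pool.Agent.H61.CT

private theorem sb_mk (m : ℕ) (A : List (Wd m)) (w : Wd m) :
    (FreeGroup.mk (sb m A w) : FN m) = E m A (FreeGroup.mk w) := by
  induction w with
  | nil =>
    have h1 : sb m A [] = [] := rfl
    rw [h1]
    exact (map_one (E m A)).symm
  | cons l w ih =>
    have h1 : sb m A (l :: w) =
        cond l.2 (A.getD l.1.val []) (FreeGroup.invRev (A.getD l.1.val [])) ++ sb m A w := rfl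
    have h2 : (FreeGroup.mk (l :: w) : FN m) = FreeGroup.mk [l] * FreeGroup.mk w := by
      rw [FreeGroup.mul_mk]; rfl
    rw [h1, h2, ← FreeGroup.mul_mk, ih, map_mul]
    congr 1
    obtain ⟨i, b⟩ := l
    unfold E
    cases b
    · simp [FreeGroup.inv_mk]
    · simp

private theorem E_of (m : ℕ) (A : List (Wd m)) (j : Fin (m + 1)) :
    E m A (FreeGroup.of j) = FreeGroup.mk (A.getD j.val []) := by
  unfold E
  exact FreeGroup.lift_apply_of

private theorem comp_mk (m : ℕ) (A B : List (Wd m)) (j : Fin (m + 1)) :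
    ((E m A).comp (E m B)) (FreeGroup.of j) = FreeGroup.mk (sb m A (B.getD j.val [])) := by
  rw [MonoidHom.comp_apply, E_of, sb_mk]

private theorem getD_map' (m : ℕ) (g : Fin (m + 1) → Wd m) (j : Fin (m + 1)) :
    ((List.finRange (m + 1)).map g).getD j.val [] = g j := by
  have h : j.val < ((List.finRange (m + 1)).map g).length := by
    rw [List.length_map, List.length_finRange]
    exact j.2
  rw [List.getD_eq_getElem _ _ h, List.getElem_map, List.getElem_finRange]
  rfl

/-- ROW J2a. Proof: `E m A (E m B (of j)) = E m A (mk (B.getD j [])) = mk (sb m A (B.getD j []))` (as `subst_mk` in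
`Pool/Agent/H28/IP/WdA.lean`), and two words have the same `FreeGroup.reduce` iff they have the same `FreeGroup.mk`
(`FreeGroup.reduce.sound`, `FreeGroup.reduce.exact`, or `FreeGroup.toWord_mk`, `FreeGroup.toWord_inj`); equality of the two mapped lists over
`List.finRange` is equality for all `j` (`List.map_inj_left`). -/
theorem cmp_eq (m : ℕ) (A B C D : List (Wd m)) : cmp m A B = cmp m C D ↔ (E m A).comp (E m B) = (E m C).comp (E m D) := by
  constructor
  · intro h
    refine FreeGroup.ext_hom _ _ fun j => ?_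
    rw [comp_mk, comp_mk]
    exact FreeGroup.reduce.exact (List.map_inj_left.1 h j (List.mem_finRange j))
  · intro h
    refine List.map_inj_left.2 fun j _ => ?_
    refine FreeGroup.reduce.sound ?_
    rw [← comp_mk, ← comp_mk, h]

/-- ROW J2b. Proof: `A = List.ofFn (fun j => (f (FreeGroup.of j)).toWord)`, `FreeGroup.mk_toWord`. -/
theorem E_surj (m : ℕ) (f : FN m →* FN m) : ∃ A, E m A = f := by
  refine ⟨(List.finRange (m + 1)).map (fun j => (f (FreeGroup.of j)).toWord), ?_⟩
  refine FreeGroup.ext_hom _ _ fun j => ?_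
  rw [E_of, getD_map', FreeGroup.mk_toWord]

/-- ROW J2c. -/
theorem E_idl (m : ℕ) : E m (idl m) = MonoidHom.id (FN m) := by
  refine FreeGroup.ext_hom _ _ fun j => ?_
  rw [E_of]
  unfold idl
  rw [getD_map']
  rfl

/-- ROW J2d. Automorphisms: pairs of lists with composition the identity in both orders. Proof: `E_surj`, `cmp_eq`, `E_idl`,
`MonoidHom.toMulEquiv`. -/
theorem aut_iff (m : ℕ) (P : (FN m →* FN m) → Prop) : (∃ ψ : FN m ≃* FN m, P ψ.toMonoidHom) ↔
    ∃ W W' : List (Wd m), (cmp m W W' = cmp m (idl m) (idl m) ∧ cmp m W' W = cmp m (idl m) (idl m)) ∧ P (E m W) := by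
  have hid : (E m (idl m)).comp (E m (idl m)) = MonoidHom.id (FN m) := by
    rw [E_idl, MonoidHom.comp_id]
  constructor
  · rintro ⟨ψ, hP⟩
    obtain ⟨W, hW⟩ := E_surj m ψ.toMonoidHom
    obtain ⟨W', hW'⟩ := E_surj m ψ.symm.toMonoidHom
    refine ⟨W, W', ⟨?_, ?_⟩, by rw [hW]; exact hP⟩
    · rw [cmp_eq, hid, hW, hW']
      ext1 x
      exact ψ.apply_symm_apply _
    · rw [cmp_eq, hid, hW, hW']
      ext1 x
      exact ψ.symm_apply_apply _
  · rintro ⟨W, W', ⟨h1, h2⟩, hP⟩
    rw [cmp_eq, hid] at h1 h2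
    refine ⟨MonoidHom.toMulEquiv (E m W) (E m W') h2 h1, ?_⟩
    exact hP

end Pool.Agent.H61.CT
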