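import Mathlib
import Pool.Agent.H61.CT.J0

/-!
# The words of a twist
-/

set_option autoImplicit false
set_option linter.unusedSectionVars false

namespace Pool.Agent.H61.CT

open Pool.Agent.H28.IP (Re vz)

theorem J3_repl {α β : Type} [Primcodable α] [Primcodable β] {f : α → ℕ} (hf : Primrec f) (b : β) :
    Primrec (fun a => List.replicate (f a) b) := by
  have h : (fun a => List.replicate (f a) b) = fun a => (List.range (f a)).map (fun _ => b) := by
    funext a
    rw [List.map_const', List.length_range]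
  rw [h]
  exact Primrec.list_map (Primrec.list_range.comp hf) (Primrec.const b).to₂

theorem J3_zw (m : ℕ) : Primrec (zw m) := by
  unfold zw
  exact Primrec.list_append.comp (J3_repl Primrec.fst ((0 : Fin (m + 1)), true))
    (J3_repl Primrec.snd ((0 : Fin (m + 1)), false))

/-- ROW J3a. Proof: as `WdB_repl`, `prim_zp` in `Pool/Agent/H28/IP/WdB.lean` (replicate is `Primrec`), `Primrec.list_map` over the constant
list `List.finRange m`, `Primrec.list_getD`, `Primrec.list_append`, `Primrec.fin_val`; `Fin.succ` on `Fin m` is primitive recursive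
(a function on a finite type: `Primrec.dom_finite` / `Primrec.dom_fintype`, or `Primrec.fin_succ`). -/
theorem prim_TW (m : ℕ) : Primrec (TW m) := by
  unfold TW
  have hg : Primrec (fun x : KL × Fin m => x.1.getD x.2.val ((0, 0), (0, 0))) :=
    (Primrec.list_getD (((0, 0), (0, 0)) : Zp × Zp)).comp Primrec.fst (Primrec.fin_val.comp Primrec.snd)
  have h1 : Primrec (fun x : KL × Fin m => zw m ((x.1.getD x.2.val ((0, 0), (0, 0))).1.2,
      (x.1.getD x.2.val ((0, 0), (0, 0))).1.1)) :=
    (J3_zw m).comp (Primrec.pair (Primrec.snd.comp (Primrec.fst.comp hg))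
      (Primrec.fst.comp (Primrec.fst.comp hg)))
  have h2 : Primrec (fun x : KL × Fin m => zw m (x.1.getD x.2.val ((0, 0), (0, 0))).2) :=
    (J3_zw m).comp (Primrec.snd.comp hg)
  have h3 : Primrec (fun x : KL × Fin m => ((x.2.succ : Fin (m + 1)), true)) :=
    Primrec.pair ((Primrec.dom_finite (Fin.succ : Fin m → Fin (m + 1))).comp Primrec.snd)
      (Primrec.const true)
  exact Primrec.list_cons.comp (Primrec.const [((0 : Fin (m + 1)), true)])
    (Primrec.list_map (Primrec.const (List.finRange m))
      (Primrec.list_append.comp h1 (Primrec.list_cons.comp h3 h2)).to₂)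

theorem J3_mkt (m n : ℕ) : (FreeGroup.mk (List.replicate n ((0 : Fin (m + 1)), true)) : FN m) =
    FreeGroup.of 0 ^ n := by
  induction n with
  | zero => rfl
  | succ n ih =>
    rw [List.replicate_succ, pow_succ', ← ih]
    rfl

theorem J3_mkf (m n : ℕ) : (FreeGroup.mk (List.replicate n ((0 : Fin (m + 1)), false)) : FN m) =
    (FreeGroup.of 0)⁻¹ ^ n := by
  induction n with
  | zero => rfl
  | succ n ih =>
    rw [List.replicate_succ, pow_succ', ← ih]
    rfl

theorem J3_mkz (m : ℕ) (u : Zp) : (FreeGroup.mk (zw m u) : FN m) = FreeGroup.of 0 ^ (vz u) := by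
  unfold zw vz
  rw [← FreeGroup.mul_mk, J3_mkt, J3_mkf, zpow_sub, zpow_natCast, zpow_natCast, inv_pow]

/-- ROW J3b. Proof: `FreeGroup.ext_hom`, cases `j = 0` and `j = i.succ` (`Fin.cases`); `mk (List.replicate n (0, true)) = of 0 ^ n`
(induction; `FreeGroup.mul_mk`), `mk (List.replicate n (0, false)) = (of 0)⁻¹ ^ n`, so `mk (zw m u) = of 0 ^ (vz u)`. -/
theorem E_TW (m : ℕ) (L : KL) : E m (TW m L) = twF (kof m L) := by
  refine FreeGroup.ext_hom _ _ (fun j => ?_)
  unfold E twF
  rw [FreeGroup.lift_apply_of, FreeGroup.lift_apply_of]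
  refine Fin.cases ?_ (fun i => ?_) j
  · unfold TW
    rfl
  · have hg : (TW m L).getD (i.succ : Fin (m + 1)).val [] =
        zw m ((L.getD i.val ((0, 0), (0, 0))).1.2, (L.getD i.val ((0, 0), (0, 0))).1.1) ++
          (i.succ, true) :: zw m (L.getD i.val ((0, 0), (0, 0))).2 := by
      unfold TW
      rw [Fin.val_succ, List.getD_cons_succ, List.getD_eq_getElem _ _ (by simp)]
      simp
    rw [hg, Fin.cases_succ, List.append_cons, ← FreeGroup.mul_mk, ← FreeGroup.mul_mk, J3_mkz, J3_mkz]
    have e : vz ((L.getD i.val ((0, 0), (0, 0))).1.2, (L.getD i.val ((0, 0), (0, 0))).1.1) =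
        -(kof m L i).1 := by
      unfold kof vz
      ring
    rw [e]
    rfl

end Pool.Agent.H61.CT
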