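import Mathlib
import Pool.Agent.H61.CT.J0
import Pool.Agent.H28.IP.WdC

/-!
# Enumerability of the certificate conditions
-/

set_option autoImplicit false
set_option linter.unusedSectionVars false

namespace Pool.Agent.H61.CT

open Pool.Agent.H28.IP (Re vz WdC_vzeq WdC_eq WdC_add re_all re_or re_ex re_prim re_of_eq)

theorem prim_cenL {α : Type} [Primcodable α] {f : α → KL} {g : α → Zp} (hf : Primrec f) (hg : Primrec g) :
    Primrec fun a => cenL (f a) (g a) := by
  have he : Primrec fun x : α × (Zp × Zp) × Zp => x.2.1 := Primrec.fst.comp Primrec.snd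
  have hp : Primrec fun x : α × (Zp × Zp) × Zp => g x.1 := hg.comp Primrec.fst
  have h1 : Primrec₂ fun (a : α) (x : (Zp × Zp) × Zp) => if vz x.1.2 = vz (g a) then x.1.1 else x.2 :=
    Primrec.ite (WdC_vzeq (Primrec.snd.comp he) hp) (Primrec.fst.comp he) (Primrec.snd.comp Primrec.snd)
  exact Primrec.list_foldr hf hg h1

theorem prim_cntL {α : Type} [Primcodable α] {f : α → KL} {g : α → Zp} (hf : Primrec f) (hg : Primrec g) :
    Primrec fun a => cntL (f a) (g a) := by
  have he : Primrec fun x : α × (Zp × Zp) × ℕ => x.2.1 := Primrec.fst.comp Primrec.snd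
  have hc : Primrec fun x : α × (Zp × Zp) × ℕ => cenL (f x.1) (g x.1) :=
    (prim_cenL hf hg).comp Primrec.fst
  have hn : Primrec fun x : α × (Zp × Zp) × ℕ => x.2.2 := Primrec.snd.comp Primrec.snd
  have h1 : Primrec₂ fun (a : α) (x : (Zp × Zp) × ℕ) =>
      if vz x.1.1 = vz (cenL (f a) (g a)) then x.2 + 1 else x.2 :=
    Primrec.ite (WdC_vzeq (Primrec.fst.comp he) hc) (WdC_add hn (Primrec.const 1)) hn
  exact Primrec.list_foldr hf (Primrec.const 0) h1

theorem prim_af {α : Type} [Primcodable α] {f : α → Zp} {s : α → Bool} {g : α → Zp} (hf : Primrec f)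
    (hs : Primrec s) (hg : Primrec g) : Primrec fun a => af (f a) (s a) (g a) := by
  have c : PrimrecPred fun a => s a = true := PrimrecRel.comp Primrec.eq hs (Primrec.const true)
  exact Primrec.ite c
    ((WdC_add (Primrec.fst.comp hf) (Primrec.fst.comp hg)).pair
      (WdC_add (Primrec.snd.comp hf) (Primrec.snd.comp hg)))
    ((WdC_add (Primrec.fst.comp hf) (Primrec.snd.comp hg)).pair
      (WdC_add (Primrec.snd.comp hf) (Primrec.fst.comp hg)))

theorem prim_cand : Primrec cand := by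
  have h : ∀ b : Bool, Primrec fun L : KL =>
      (((0, 0), b) :: L.flatMap (fun e => [(e.1, b), (e.2, b)]) : List (Zp × Bool)) := by
    intro b
    refine Primrec.list_cons.comp (Primrec.const _) (Primrec.list_flatMap Primrec.id ?_)
    have h1 : Primrec fun x : KL × (Zp × Zp) => x.2.1 := Primrec.fst.comp Primrec.snd
    have h2 : Primrec fun x : KL × (Zp × Zp) => x.2.2 := Primrec.snd.comp Primrec.snd
    exact Primrec.list_cons.comp (h1.pair (Primrec.const b))
      (Primrec.list_cons.comp (h2.pair (Primrec.const b)) (Primrec.const []))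
  exact Primrec.list_append.comp (h true) (h false)

theorem xor_aux (P Q : Prop) : (P ∧ ¬ Q) ∨ (¬ P ∧ Q) ↔ ¬ (P ↔ Q) := by tauto

/-- ROW J4a. Proof: `vz u = vz v ↔ u.1 + v.2 = v.1 + u.2` (omega; see `WdC_vz`, `WdC_vzeq` in `Pool/Agent/H28/IP/WdC.lean`), bounded quantifiers
`PrimrecRel.forall_mem_list` (or `Pool.Agent.H28.IP.re_all` twice, after `re_prim`). -/
theorem re_StarL : Re StarL := by
  have e1 : Primrec fun y : (KL × (Zp × Zp)) × (Zp × Zp) => y.1.2 := Primrec.snd.comp Primrec.fst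
  have f1 : Primrec fun y : (KL × (Zp × Zp)) × (Zp × Zp) => y.2 := Primrec.snd
  have a1 := WdC_vzeq (Primrec.snd.comp e1) (Primrec.snd.comp f1)
  have a2 := WdC_vzeq (Primrec.snd.comp e1) (Primrec.fst.comp f1)
  have a3 := WdC_vzeq (Primrec.fst.comp e1) (Primrec.fst.comp f1)
  have h : PrimrecPred fun y : (KL × (Zp × Zp)) × (Zp × Zp) =>
      (vz y.1.2.2 = vz y.2.2 → vz y.1.2.1 = vz y.2.1) ∧ (vz y.1.2.2 = vz y.2.1 → vz y.1.2.1 = vz y.2.1) :=
    ((a1.not.or a3).and (a2.not.or a3)).of_eq fun y => by tauto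
  exact re_all (p := fun z : KL × (Zp × Zp) => ∀ f ∈ z.1,
      (vz z.2.2 = vz f.2 → vz z.2.1 = vz f.1) ∧ (vz z.2.2 = vz f.1 → vz z.2.1 = vz f.1))
    (re_all (re_prim h) Primrec.fst) Primrec.id

/-- ROW J4b. Proof: `cenL` and `cntL` are `Primrec₂` (`Primrec.list_foldr`, `Primrec.ite`), `af` is primitive recursive, `cand` is
primitive recursive (`Primrec.list_flatMap`, `Primrec.list_append`, `Primrec.list_cons`); then
`Pool.Agent.H28.IP.re_all`, `re_or`, `re_ex`, `re_prim` (files Re1 and Re2 of `Pool/Agent/H28/IP`). -/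
theorem re_NCL : Re NCL := by
  -- first condition
  have x1 : Primrec fun z : (KL × KL) × (Zp × Bool) => z.1.2 := Primrec.snd.comp Primrec.fst
  have c1 : Primrec fun z : (KL × KL) × (Zp × Bool) => z.2.1 := Primrec.fst.comp Primrec.snd
  have A : PrimrecPred fun z : (KL × KL) × (Zp × Bool) =>
      ¬ (vz (cenL z.1.2 (0, 0)) = vz (cenL z.1.2 z.2.1)) :=
    (WdC_vzeq (prim_cenL x1 (Primrec.const (0, 0))) (prim_cenL x1 c1)).not
  -- second condition
  have B : PrimrecPred fun w : ((KL × KL) × (Zp × Bool)) × (Zp × Zp) =>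
      ¬ (vz (cenL w.1.1.1 w.2.1) = vz (cenL w.1.1.1 w.2.2) ↔
        vz (cenL w.1.1.2 (af w.1.2.1 w.1.2.2 w.2.1)) = vz (cenL w.1.1.2 (af w.1.2.1 w.1.2.2 w.2.2))) := by
    have l1 : Primrec fun w : ((KL × KL) × (Zp × Bool)) × (Zp × Zp) => w.1.1.1 :=
      Primrec.fst.comp (Primrec.fst.comp Primrec.fst)
    have l2 : Primrec fun w : ((KL × KL) × (Zp × Bool)) × (Zp × Zp) => w.1.1.2 :=
      Primrec.snd.comp (Primrec.fst.comp Primrec.fst)
    have d1 : Primrec fun w : ((KL × KL) × (Zp × Bool)) × (Zp × Zp) => w.1.2.1 :=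
      Primrec.fst.comp (Primrec.snd.comp Primrec.fst)
    have d2 : Primrec fun w : ((KL × KL) × (Zp × Bool)) × (Zp × Zp) => w.1.2.2 :=
      Primrec.snd.comp (Primrec.snd.comp Primrec.fst)
    have p1 : Primrec fun w : ((KL × KL) × (Zp × Bool)) × (Zp × Zp) => w.2.1 :=
      Primrec.fst.comp Primrec.snd
    have p2 : Primrec fun w : ((KL × KL) × (Zp × Bool)) × (Zp × Zp) => w.2.2 :=
      Primrec.snd.comp Primrec.snd
    have u := WdC_vzeq (prim_cenL l1 p1) (prim_cenL l1 p2)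
    have v := WdC_vzeq (prim_cenL l2 (prim_af d1 d2 p1)) (prim_cenL l2 (prim_af d1 d2 p2))
    exact ((u.and v.not).or (u.not.and v)).of_eq fun w => xor_aux _ _
  -- third condition
  have C : PrimrecPred fun w : ((KL × KL) × (Zp × Bool)) × Zp =>
      cntL w.1.1.1 w.2 ≠ cntL w.1.1.2 (af w.1.2.1 w.1.2.2 w.2) := by
    have l1 : Primrec fun w : ((KL × KL) × (Zp × Bool)) × Zp => w.1.1.1 :=
      Primrec.fst.comp (Primrec.fst.comp Primrec.fst)
    have l2 : Primrec fun w : ((KL × KL) × (Zp × Bool)) × Zp => w.1.1.2 :=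
      Primrec.snd.comp (Primrec.fst.comp Primrec.fst)
    have d1 : Primrec fun w : ((KL × KL) × (Zp × Bool)) × Zp => w.1.2.1 :=
      Primrec.fst.comp (Primrec.snd.comp Primrec.fst)
    have d2 : Primrec fun w : ((KL × KL) × (Zp × Bool)) × Zp => w.1.2.2 :=
      Primrec.snd.comp (Primrec.snd.comp Primrec.fst)
    exact (WdC_eq (prim_cntL l1 Primrec.snd) (prim_cntL l2 (prim_af d1 d2 Primrec.snd))).not
  exact re_all (p := fun z : (KL × KL) × (Zp × Bool) =>
      ¬ (vz (cenL z.1.2 (0, 0)) = vz (cenL z.1.2 z.2.1)) ∨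
      (∃ p : Zp × Zp, ¬ (vz (cenL z.1.1 p.1) = vz (cenL z.1.1 p.2) ↔
        vz (cenL z.1.2 (af z.2.1 z.2.2 p.1)) = vz (cenL z.1.2 (af z.2.1 z.2.2 p.2)))) ∨
      ∃ p : Zp, cntL z.1.1 p ≠ cntL z.1.2 (af z.2.1 z.2.2 p))
    (re_or (re_prim A) (re_or (re_ex (re_prim B)) (re_ex (re_prim C)))) (prim_cand.comp Primrec.snd)

end Pool.Agent.H61.CT
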