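import Mathlib
import Pool.Agent.H61.CT.J0

/-!
# Classes and counts of star lists
-/

set_option autoImplicit false
set_option linter.unusedSectionVars false

namespace Pool.Agent.H61.CT

open Pool.Agent.H28.IP (Re vz)

theorem J5_cenL_cases (L : KL) (p : Zp) :
    (∃ e ∈ L, vz e.2 = vz p ∧ cenL L p = e.1) ∨ ((∀ e ∈ L, vz e.2 ≠ vz p) ∧ cenL L p = p) := by
  induction L with
  | nil =>
    right
    refine ⟨fun e he => absurd he (List.not_mem_nil), rfl⟩
  | cons a L ih =>
    have h0 : cenL (a :: L) p = if vz a.2 = vz p then a.1 else cenL L p := rfl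
    by_cases h : vz a.2 = vz p
    · left
      refine ⟨a, List.mem_cons_self, h, ?_⟩
      rw [h0, if_pos h]
    · rw [h0, if_neg h]
      rcases ih with ⟨e, he, h1, h2⟩ | ⟨h1, h2⟩
      · left
        exact ⟨e, List.mem_cons_of_mem _ he, h1, h2⟩
      · right
        refine ⟨?_, h2⟩
        intro e he
        rcases List.mem_cons.1 he with rfl | he
        · exact h
        · exact h1 e he

theorem J5_cen_of_snd {L : KL} (hL : StarL L) {e : Zp × Zp} (he : e ∈ L) {p : Zp} (h : vz e.2 = vz p) :
    vz (cenL L p) = vz e.1 := by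
  rcases J5_cenL_cases L p with ⟨f, hf, h1, h2⟩ | ⟨h1, -⟩
  · rw [h2]
    exact (hL f hf e he).1 (h1.trans h.symm)
  · exact absurd h (h1 e he)

theorem J5_cen_of_fst {L : KL} (hL : StarL L) {e : Zp × Zp} (he : e ∈ L) {p : Zp} (h : vz e.1 = vz p) :
    vz (cenL L p) = vz e.1 := by
  rcases J5_cenL_cases L p with ⟨f, hf, h1, h2⟩ | ⟨-, h2⟩
  · rw [h2]
    exact (hL f hf e he).2 (h1.trans h.symm)
  · rw [h2, h]

theorem J5_cen_congr {L : KL} (hL : StarL L) {p q : Zp} (h : vz p = vz q) :
    vz (cenL L p) = vz (cenL L q) := by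
  rcases J5_cenL_cases L p with ⟨f, hf, h1, h2⟩ | ⟨h1, h2⟩
  · rw [h2, J5_cen_of_snd hL hf (h1.trans h)]
  · rcases J5_cenL_cases L q with ⟨f, hf, h3, h4⟩ | ⟨h3, h4⟩
    · exact absurd (h3.trans h.symm) (h1 f hf)
    · rw [h2, h4, h]

theorem J5_getD_mem {L : KL} {i : ℕ} (h : i < L.length) : L.getD i ((0, 0), (0, 0)) ∈ L := by
  rw [List.getD_eq_getElem _ _ h]
  exact List.getElem_mem h

theorem J5_vz_surj (a : ℤ) : ∃ p : Zp, vz p = a := ⟨(a.toNat, (-a).toNat), by unfold vz; omega⟩

theorem J5_R_cen (m : ℕ) (L : KL) (hm : L.length = m) (p : Zp) :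
    R (kof m L) (vz p) (vz (cenL L p)) := by
  rcases J5_cenL_cases L p with ⟨e, he, h1, h2⟩ | ⟨-, h2⟩
  · obtain ⟨i, hi, hie⟩ := List.getElem_of_mem he
    have hg : L.getD i ((0, 0), (0, 0)) = e := by
      rw [List.getD_eq_getElem _ _ hi]
      exact hie
    have h := R.edge (kof m L) ⟨i, hm ▸ hi⟩
    have e1 : (kof m L ⟨i, hm ▸ hi⟩).1 = vz e.1 := by
      change vz (L.getD i ((0, 0), (0, 0))).1 = vz e.1
      rw [hg]
    have e2 : (kof m L ⟨i, hm ▸ hi⟩).2 = vz e.2 := by
      change vz (L.getD i ((0, 0), (0, 0))).2 = vz e.2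
      rw [hg]
    rw [e1, e2, h1] at h
    rw [h2]
    exact h.symm
  · rw [h2]
    exact R.refl _ _

/-- ROW J5a. In a star list, `cenL` computes the centre. Proof: `cenL L p` is the first end of the first entry with `vz e.2 = vz p`, or `p`
if there is none (induction on the list; it is convenient to prove first: either some `e ∈ L` has `vz e.2 = vz p` and `cenL L p = e.1`, or no
`e ∈ L` has it and `cenL L p = p`). By `StarL` the value `vz (cenL L p)` is `vz e.1` for every `e ∈ L` with `vz e.2 = vz p` or with
`vz e.1 = vz p`. From left to right: `Relation.EqvGen` induction (an edge `i` of `kof m L` is the entry `L[i]`, as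
`L.length = m`; both ends have the centre `vz e.1`). From right to left: `p` is joined to its centre (by the edge `e`, or equal to it). -/
theorem R_iff (m : ℕ) (L : KL) (hm : L.length = m) (hL : StarL L) (p q : Zp) :
    R (kof m L) (vz p) (vz q) ↔ vz (cenL L p) = vz (cenL L q) := by
  constructor
  · intro h
    have key : ∀ a b : ℤ, R (kof m L) a b → ∀ p q : Zp, vz p = a → vz q = b →
        vz (cenL L p) = vz (cenL L q) := by
      intro a b hab
      induction hab with
      | rel a b h =>
        intro p q hp hq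
        obtain ⟨i, h1, h2⟩ := h
        have hi : i.val < L.length := by rw [hm]; exact i.2
        have he := J5_getD_mem hi
        rw [J5_cen_of_fst hL he (h1.trans hp.symm), J5_cen_of_snd hL he (h2.trans hq.symm)]
      | refl a =>
        intro p q hp hq
        exact J5_cen_congr hL (hp.trans hq.symm)
      | symm a b _ ih =>
        intro p q hp hq
        exact (ih q p hq hp).symm
      | trans a b c _ _ ih1 ih2 =>
        intro p q hp hq
        obtain ⟨r, hr⟩ := J5_vz_surj b
        exact (ih1 p r hp hr).trans (ih2 r q hr hq)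
    exact key _ _ h p q rfl rfl
  · intro h
    have h1 := J5_R_cen m L hm p
    have h2 := J5_R_cen m L hm q
    rw [h] at h1
    exact h1.trans h2.symm

theorem J5_card_getD (P : Zp × Zp → Prop) [DecidablePred P] (d : Zp × Zp) (L : KL) :
    Nat.card {i : Fin L.length // P (L.getD i.val d)} =
      L.foldr (fun e acc => if P e then acc + 1 else acc) 0 := by
  induction L with
  | nil =>
    simp
  | cons a L ih =>
    rw [Nat.card_eq_fintype_card, Fintype.card_subtype] at ih ⊢
    have h := Fin.card_filter_univ_succ (n := L.length) (fun i => P ((a :: L).getD i.val d))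
    have h1 : (Finset.univ.filter fun i : Fin L.length => P ((a :: L).getD i.succ.val d)) =
        Finset.univ.filter fun i : Fin L.length => P (L.getD i.val d) := by
      congr 1
    rw [List.foldr_cons, ← ih, ← h1]
    exact h

/-- ROW J5b. Proof: by `R_iff` the edge `i` is counted iff `vz (cenL L p) = vz (cenL L (L[i]).1) = vz (L[i]).1`; `cntL` is the length of a
filter of `L` (`List.countP`), and the number of `i : Fin m` with a property of `L[i]` is that length. -/
theorem cnt_eq (m : ℕ) (L : KL) (hm : L.length = m) (hL : StarL L) (p : Zp) : cnt (kof m L) (vz p) = cntL L p := by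
  subst hm
  have h := J5_card_getD (fun e => vz e.1 = vz (cenL L p)) ((0, 0), (0, 0)) L
  unfold cnt cntL
  rw [← h]
  refine Nat.card_congr (Equiv.subtypeEquivRight fun i => ?_)
  have he := J5_getD_mem i.2
  have h1 : (kof L.length L i).1 = vz (L.getD i.val ((0, 0), (0, 0))).1 := rfl
  rw [h1, R_iff _ L rfl hL, J5_cen_of_fst hL he rfl]
  exact eq_comm

end Pool.Agent.H61.CT
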