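import Mathlib
import Pool.Agent.H61.CT.J5

/-!
# The certificate of inequivalence
-/

set_option autoImplicit false
set_option linter.unusedSectionVars false

namespace Pool.Agent.H61.CT

open Pool.Agent.H28.IP (Re vz)

theorem J6_surj (n : ℤ) : ∃ u : Zp, vz u = n := ⟨(n.toNat, (-n).toNat), by unfold vz; simp⟩

theorem J6_af (a p : Zp) (s : Bool) :
    vz (af a s p) = vz a + (if s = true then (1 : ℤ) else -1) * vz p := by
  unfold af vz
  cases s
  · simp only [Bool.false_eq_true, if_false]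
    push_cast
    ring
  · simp only [if_true]
    push_cast
    ring

theorem J6_ends (m : ℕ) (L : KL) (hm : L.length = m) {x y : ℤ} (h : R (kof m L) x y) :
    x = y ∨ ((∃ e ∈ L, vz e.1 = x ∨ vz e.2 = x) ∧ ∃ e ∈ L, vz e.1 = y ∨ vz e.2 = y) := by
  induction h with
  | rel x y h =>
    obtain ⟨i, h1, h2⟩ := h
    have hi : i.val < L.length := by
      rw [hm]
      exact i.isLt
    have h3 : L.getD i.val ((0, 0), (0, 0)) = L[i.val] := List.getD_eq_getElem _ _ hi
    have h4 : L.getD i.val ((0, 0), (0, 0)) ∈ L := by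
      rw [h3]
      exact List.getElem_mem hi
    exact Or.inr ⟨⟨_, h4, Or.inl h1⟩, ⟨_, h4, Or.inr h2⟩⟩
  | refl x => exact Or.inl rfl
  | symm x y _ ih =>
    rcases ih with h | ⟨h1, h2⟩
    · exact Or.inl h.symm
    · exact Or.inr ⟨h2, h1⟩
  | trans x y z _ _ ih1 ih2 =>
    rcases ih1 with h | ⟨h1, h2⟩
    · rw [h]
      exact ih2
    · rcases ih2 with h' | ⟨h3, h4⟩
      · rw [← h']
        exact Or.inr ⟨h1, h2⟩
      · exact Or.inr ⟨h1, h4⟩

theorem J6_key (m : ℕ) (L L' : KL) (h1 : L.length = m) (h2 : L'.length = m) (s1 : StarL L)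
    (s2 : StarL L') (c : Zp) (s : Bool) :
    (vz (cenL L' (0, 0)) = vz (cenL L' c) ∧
      (∀ p : Zp × Zp, (vz (cenL L p.1) = vz (cenL L p.2) ↔
        vz (cenL L' (af c s p.1)) = vz (cenL L' (af c s p.2)))) ∧
      ∀ p : Zp, cntL L p = cntL L' (af c s p)) ↔
    (R (kof m L') 0 (vz c) ∧
      (∀ p q : ℤ, R (kof m L) p q ↔ R (kof m L') (vz c + (if s = true then (1 : ℤ) else -1) * p)
        (vz c + (if s = true then (1 : ℤ) else -1) * q)) ∧
      ∀ p : ℤ, cnt (kof m L) p =
        cnt (kof m L') (vz c + (if s = true then (1 : ℤ) else -1) * p)) := by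
  have h0 : vz ((0, 0) : Zp) = 0 := by
    unfold vz
    simp
  constructor
  · rintro ⟨a1, a2, a3⟩
    refine ⟨?_, ?_, ?_⟩
    · have h3 := (R_iff m L' h2 s2 (0, 0) c).2 a1
      rwa [h0] at h3
    · intro p q
      obtain ⟨p, rfl⟩ := J6_surj p
      obtain ⟨q, rfl⟩ := J6_surj q
      rw [← J6_af, ← J6_af, R_iff m L h1 s1, R_iff m L' h2 s2]
      exact a2 (p, q)
    · intro p
      obtain ⟨p, rfl⟩ := J6_surj p
      rw [← J6_af, cnt_eq m L h1 s1, cnt_eq m L' h2 s2]
      exact a3 p
  · rintro ⟨a1, a2, a3⟩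
    refine ⟨?_, ?_, ?_⟩
    · rw [← R_iff m L' h2 s2, h0]
      exact a1
    · intro p
      rw [← R_iff m L h1 s1, ← R_iff m L' h2 s2, J6_af, J6_af]
      exact a2 _ _
    · intro p
      rw [← cnt_eq m L h1 s1, ← cnt_eq m L' h2 s2, J6_af]
      exact a3 _

/-- ROW J6. Proof. `vz (af a true p) = vz a + vz p`, `vz (af a false p) = vz a - vz p`. If `Crit` holds with `a`, `ε`: `R k' 0 a` gives
`a = 0` or `a` is an end of an edge of `k' = kof m L'` (`Relation.EqvGen` induction on `a = b ∨ (both are ends of edges)`), so `(a', s) ∈ cand L'`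
for some `a'` with `vz a' = a` and `s = true` iff `ε = 1`; then none of the three alternatives of `NCL` holds for this candidate
(`R_iff`, `cnt_eq`; for the first one use `R_iff` with `p = (0, 0)`; every integer is `vz` of a pair, `WdC_surj`). Conversely if `NCL` fails,
some candidate has none of the three alternatives, and `a = vz c.1`, `ε = 1` or `-1` work. (`vz` only matters up to value: `R_iff` and
`cnt_eq` for pairs with the same `vz`.) -/
theorem NCL_iff (m : ℕ) (L L' : KL) (h1 : L.length = m) (h2 : L'.length = m) (s1 : StarL L) (s2 : StarL L') :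
    NCL (L, L') ↔ ¬ Crit (kof m L) (kof m L') := by
  have hneg : ¬ NCL (L, L') ↔ ∃ c ∈ cand L', vz (cenL L' (0, 0)) = vz (cenL L' c.1) ∧
      (∀ p : Zp × Zp, (vz (cenL L p.1) = vz (cenL L p.2) ↔
        vz (cenL L' (af c.1 c.2 p.1)) = vz (cenL L' (af c.1 c.2 p.2)))) ∧
      ∀ p : Zp, cntL L p = cntL L' (af c.1 c.2 p) := by
    unfold NCL
    push Not
    rfl
  rw [← not_iff_not, hneg, not_not]
  constructor
  · rintro ⟨c, _, hc⟩
    obtain ⟨a1, a2, a3⟩ := (J6_key m L L' h1 h2 s1 s2 c.1 c.2).1 hc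
    refine ⟨vz c.1, if c.2 = true then (1 : ℤ) else -1, ?_, a1, a2, a3⟩
    cases c.2
    · exact Or.inr rfl
    · exact Or.inl rfl
  · rintro ⟨a, ε, hε, a1, a2, a3⟩
    have hs : ∃ s : Bool, (if s = true then (1 : ℤ) else -1) = ε := by
      rcases hε with h | h
      · exact ⟨true, by rw [h]; rfl⟩
      · exact ⟨false, by rw [h]; rfl⟩
    obtain ⟨s, rfl⟩ := hs
    have hc : ∃ c : Zp, (c, s) ∈ cand L' ∧ vz c = a := by
      rcases J6_ends m L' h2 a1 with h | ⟨-, e, he, h⟩
      · refine ⟨(0, 0), ?_, ?_⟩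
        · unfold cand
          cases s <;> simp
        · rw [← h]
          unfold vz
          simp
      · rcases h with h | h
        · refine ⟨e.1, ?_, h⟩
          unfold cand
          cases s
          · refine List.mem_append_right _ (List.mem_cons_of_mem _ ?_)
            exact List.mem_flatMap.2 ⟨e, he, by simp⟩
          · refine List.mem_append_left _ (List.mem_cons_of_mem _ ?_)
            exact List.mem_flatMap.2 ⟨e, he, by simp⟩
        · refine ⟨e.2, ?_, h⟩
          unfold cand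
          cases s
          · refine List.mem_append_right _ (List.mem_cons_of_mem _ ?_)
            exact List.mem_flatMap.2 ⟨e, he, by simp⟩
          · refine List.mem_append_left _ (List.mem_cons_of_mem _ ?_)
            exact List.mem_flatMap.2 ⟨e, he, by simp⟩
    obtain ⟨c, hc1, rfl⟩ := hc
    exact ⟨(c, s), hc1, (J6_key m L L' h1 h2 s1 s2 c s).2 ⟨a1, a2, a3⟩⟩

end Pool.Agent.H61.CT
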