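import Mathlib
import Pool.Agent.H61.CT.J0

set_option autoImplicit false
set_option linter.unusedSectionVars false

namespace Pool.Agent.H61.CT

open Pool.Agent.H28.IP (Re vz)

theorem exists_starL (m : ℕ) (k : Fin m → ℤ × ℤ) : ∃ L : KL, L.length = m ∧ StarL L ∧ Eq0 k (kof m L) := by
  classical
  let st : Setoid ℤ := ⟨R k, fun a => R.refl k a, fun h => h.symm, fun h h' => h.trans h'⟩
  let ctr : ℤ → ℤ := fun a => (Quotient.mk st a).out
  have hc1 : ∀ a b, R k a b → ctr a = ctr b := by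
    intro a b h
    show (Quotient.mk st a).out = (Quotient.mk st b).out
    rw [Quotient.sound (s := st) h]
  have hc2 : ∀ a, R k a (ctr a) := by
    intro a
    exact R.symm (Quotient.mk_out (s := st) a)
  obtain ⟨k₁, e1, s1⟩ := exists_star k ctr hc1 hc2
  have r1 : ∀ a b, R k a b ↔ R k₁ a b := fun a b => ⟨eq0_R e1 a b, eq0_R e1.symm a b⟩
  have hed : ∀ i, ctr (k₁ i).1 = ctr (k₁ i).2 := fun i => hc1 _ _ ((r1 _ _).2 (R.edge k₁ i))
  let pz : ℤ → Zp := fun a => (a.toNat, (-a).toNat)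
  have hpz : ∀ a, vz (pz a) = a := by
    intro a
    show ((a.toNat : ℕ) : ℤ) - (((-a).toNat : ℕ) : ℤ) = a
    omega
  let L : KL := List.ofFn (fun i => (pz (k₁ i).1, pz (k₁ i).2))
  have hlen : L.length = m := by simp [L]
  have hk : kof m L = k₁ := by
    funext i
    have h1 : L.getD i.val ((0, 0), (0, 0)) = (pz (k₁ i).1, pz (k₁ i).2) := by
      rw [List.getD_eq_getElem _ _ (by rw [hlen]; exact i.2)]
      simp [L]
    show (vz (L.getD i.val ((0, 0), (0, 0))).1, vz (L.getD i.val ((0, 0), (0, 0))).2) = k₁ i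
    rw [h1]
    simp only [hpz]
  refine ⟨L, hlen, ?_, ?_⟩
  · intro e he f hf
    obtain ⟨i, hi⟩ := List.mem_ofFn.1 he
    obtain ⟨j, hj⟩ := List.mem_ofFn.1 hf
    rw [← hi, ← hj]
    simp only [hpz]
    constructor
    · intro h
      rw [s1 i, s1 j, hed i, hed j, h]
    · intro h
      rw [s1 i, s1 j, hed i, h]
  · rw [hk]
    exact e1

end Pool.Agent.H61.CT
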