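import Mathlib
import Pool.Agent.H61.CT.J0

/-!
# Transport to the free group on `Fin (m + 1)`
-/

set_option autoImplicit false
set_option linter.unusedSectionVars false

namespace Pool.Agent.H61.CT

/-- ROW J8a. The isomorphism `e` induced by `finSuccEquiv m : Fin (m + 1) ≃ Option (Fin m)` (`FreeGroup.freeGroupCongr`) satisfies
`e (twF k x) = tw k (e x)` (check on the generators: `FreeGroup.ext_hom`, `Fin.cases`). -/
theorem exists_e (m : ℕ) : ∃ e : FN m ≃* F (Fin m), ∀ (k : Fin m → ℤ × ℤ) (x : FN m), e (twF k x) = tw k (e x) := by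
  refine ⟨FreeGroup.freeGroupCongr (finSuccEquiv m), ?_⟩
  intro k y
  have he : ∀ j : Fin (m + 1), (FreeGroup.freeGroupCongr (finSuccEquiv m)) (FreeGroup.of j) = FreeGroup.of (finSuccEquiv m j) := by
    intro j
    simp
  have h0 : (FreeGroup.freeGroupCongr (finSuccEquiv m)) (FreeGroup.of 0) = (t : F (Fin m)) := by
    rw [he, finSuccEquiv_zero]
    rfl
  have hs : ∀ i : Fin m, (FreeGroup.freeGroupCongr (finSuccEquiv m)) (FreeGroup.of i.succ) = (x i : F (Fin m)) := by
    intro i
    rw [he, finSuccEquiv_succ]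
    rfl
  have key : ((FreeGroup.freeGroupCongr (finSuccEquiv m)).toMonoidHom).comp (twF k) =
      (tw k).comp ((FreeGroup.freeGroupCongr (finSuccEquiv m)).toMonoidHom) := by
    apply FreeGroup.ext_hom
    intro j
    refine Fin.cases ?_ ?_ j
    · show (FreeGroup.freeGroupCongr (finSuccEquiv m)) (twF k (FreeGroup.of 0)) = tw k ((FreeGroup.freeGroupCongr (finSuccEquiv m)) (FreeGroup.of 0))
      rw [h0, tw_t, twF, FreeGroup.lift_apply_of]
      exact h0
    · intro i
      show (FreeGroup.freeGroupCongr (finSuccEquiv m)) (twF k (FreeGroup.of i.succ)) = tw k ((FreeGroup.freeGroupCongr (finSuccEquiv m)) (FreeGroup.of i.succ))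
      rw [hs, tw_x, twF, FreeGroup.lift_apply_of]
      show (FreeGroup.freeGroupCongr (finSuccEquiv m)) (FreeGroup.of 0 ^ (-(k i).1) * FreeGroup.of i.succ * FreeGroup.of 0 ^ (k i).2) = _
      rw [map_mul, map_mul, map_zpow, map_zpow, h0, hs]
  exact DFunLike.congr_fun key y

/-- ROW J8b. Proof: transport `classification k k'` with `e` of `exists_e`: `ψ = e.trans (θ.trans e.symm)`. -/
theorem conj_iff (m : ℕ) (k k' : Fin m → ℤ × ℤ) : (∃ ψ : FN m ≃* FN m, ∀ x, ψ (twF k x) = twF k' (ψ x)) ↔ Crit k k' := by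
  obtain ⟨e, he⟩ := exists_e m
  have he' : ∀ (k : Fin m → ℤ × ℤ) (g : F (Fin m)), e.symm (tw k g) = twF k (e.symm g) := by
    intro k g
    apply e.injective
    rw [he, e.apply_symm_apply, e.apply_symm_apply]
  unfold Crit
  rw [← classification k k']
  constructor
  · rintro ⟨ψ, hψ⟩
    refine ⟨(e.symm.trans ψ).trans e, ?_⟩
    intro g
    simp only [MulEquiv.trans_apply]
    rw [he', hψ, he]
  · rintro ⟨θ, hθ⟩
    refine ⟨(e.trans θ).trans e.symm, ?_⟩
    intro g
    simp only [MulEquiv.trans_apply]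
    rw [he, hθ, he']

/-- ROW J8c. -/
theorem conj_of_Eq0 (m : ℕ) (k k' : Fin m → ℤ × ℤ) (h : Eq0 k k') : ∃ ψ : FN m ≃* FN m, ∀ x, ψ (twF k x) = twF k' (ψ x) := by
  obtain ⟨η, _, hη⟩ := h
  rw [conj_iff]
  unfold Crit
  rw [← classification k k']
  exact ⟨η, hη⟩

/-- ROW J8d. The twist is an automorphism. Proof: `tw_tw`, `tw_zero` and `exists_e`. -/
theorem twF_twF (m : ℕ) (k : Fin m → ℤ × ℤ) (x : FN m) : twF (-k) (twF k x) = x ∧ twF k (twF (-k) x) = x := by
  obtain ⟨e, he⟩ := exists_e m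
  constructor
  · apply e.injective
    rw [he, he, tw_tw, neg_add_cancel, tw_zero]
  · apply e.injective
    rw [he, he, tw_tw, add_neg_cancel, tw_zero]

end Pool.Agent.H61.CT
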