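import Mathlib
import Pool.Agent.H61.CT.J1
import Pool.Agent.H61.CT.J2
import Pool.Agent.H61.CT.J3
import Pool.Agent.H61.CT.J4
import Pool.Agent.H61.CT.J6
import Pool.Agent.H61.CT.J7
import Pool.Agent.H61.CT.J8
import Pool.Agent.H28.IP.Re1

/-!
# The conjugacy algorithm
-/

set_option autoImplicit false
set_option linter.unusedSectionVars false

namespace Pool.Agent.H61.CT

open Pool.Agent.H28.IP (Re vz re_prim re_of_eq re_comp re_and re_or re_ex re_all re_decide)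

theorem re_conj (m : ℕ) : Re (fun x : List (Wd m) × List (Wd m) =>
    ∃ ψ : FN m ≃* FN m, ∀ g, ψ (E m x.1 g) = E m x.2 (ψ g)) := by
  have hW : Primrec (fun y : ((List (Wd m) × List (Wd m)) × List (Wd m)) × List (Wd m) => y.1.2) :=
    Primrec.snd.comp Primrec.fst
  have hW' : Primrec (fun y : ((List (Wd m) × List (Wd m)) × List (Wd m)) × List (Wd m) => y.2) := Primrec.snd
  have ha : Primrec (fun y : ((List (Wd m) × List (Wd m)) × List (Wd m)) × List (Wd m) => y.1.1.1) :=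
    Primrec.fst.comp (Primrec.fst.comp Primrec.fst)
  have hb : Primrec (fun y : ((List (Wd m) × List (Wd m)) × List (Wd m)) × List (Wd m) => y.1.1.2) :=
    Primrec.snd.comp (Primrec.fst.comp Primrec.fst)
  have h : PrimrecPred (fun y : ((List (Wd m) × List (Wd m)) × List (Wd m)) × List (Wd m) =>
      (cmp m y.1.2 y.2 = cmp m (idl m) (idl m) ∧ cmp m y.2 y.1.2 = cmp m (idl m) (idl m)) ∧
        cmp m y.1.2 y.1.1.1 = cmp m y.1.1.2 y.1.2) := by
    refine PrimrecPred.and (PrimrecPred.and ?_ ?_) ?_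
    · exact PrimrecRel.comp Primrec.eq ((prim_cmp m).comp hW hW') (Primrec.const _)
    · exact PrimrecRel.comp Primrec.eq ((prim_cmp m).comp hW' hW) (Primrec.const _)
    · exact PrimrecRel.comp Primrec.eq ((prim_cmp m).comp hW ha) ((prim_cmp m).comp hb hW)
  refine re_of_eq (re_ex (re_ex (re_prim h))) ?_
  intro x
  have h2 := aut_iff m (fun f => f.comp (E m x.1) = (E m x.2).comp f)
  constructor
  · rintro ⟨W, W', h3, h4⟩
    obtain ⟨ψ, hψ⟩ := h2.2 ⟨W, W', h3, (cmp_eq m _ _ _ _).1 h4⟩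
    exact ⟨ψ, fun g => DFunLike.congr_fun hψ g⟩
  · rintro ⟨ψ, hψ⟩
    obtain ⟨W, W', h3, h4⟩ := h2.1 ⟨ψ, MonoidHom.ext hψ⟩
    exact ⟨W, W', h3, (cmp_eq m _ _ _ _).2 h4⟩

theorem re_MTL (m : ℕ) : Re (fun x : List (Wd m) × KL =>
    ∃ e : FN m ≃* FN m, ∀ g, E m x.1 (e g) = e (twF (kof m x.2) g)) := by
  have hW : Primrec (fun y : ((List (Wd m) × KL) × List (Wd m)) × List (Wd m) => y.1.2) :=
    Primrec.snd.comp Primrec.fst
  have hW' : Primrec (fun y : ((List (Wd m) × KL) × List (Wd m)) × List (Wd m) => y.2) := Primrec.snd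
  have ha : Primrec (fun y : ((List (Wd m) × KL) × List (Wd m)) × List (Wd m) => y.1.1.1) :=
    Primrec.fst.comp (Primrec.fst.comp Primrec.fst)
  have hb : Primrec (fun y : ((List (Wd m) × KL) × List (Wd m)) × List (Wd m) => y.1.1.2) :=
    Primrec.snd.comp (Primrec.fst.comp Primrec.fst)
  have h : PrimrecPred (fun y : ((List (Wd m) × KL) × List (Wd m)) × List (Wd m) =>
      (cmp m y.1.2 y.2 = cmp m (idl m) (idl m) ∧ cmp m y.2 y.1.2 = cmp m (idl m) (idl m)) ∧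
        cmp m y.1.1.1 y.1.2 = cmp m y.1.2 (TW m y.1.1.2)) := by
    refine PrimrecPred.and (PrimrecPred.and ?_ ?_) ?_
    · exact PrimrecRel.comp Primrec.eq ((prim_cmp m).comp hW hW') (Primrec.const _)
    · exact PrimrecRel.comp Primrec.eq ((prim_cmp m).comp hW' hW) (Primrec.const _)
    · exact PrimrecRel.comp Primrec.eq ((prim_cmp m).comp ha hW) ((prim_cmp m).comp hW ((prim_TW m).comp hb))
  refine re_of_eq (re_ex (re_ex (re_prim h))) ?_
  intro x
  have h2 := aut_iff m (fun f => (E m x.1).comp f = f.comp (twF (kof m x.2)))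
  constructor
  · rintro ⟨W, W', h3, h4⟩
    have h5 := (cmp_eq m _ _ _ _).1 h4
    rw [E_TW] at h5
    obtain ⟨ψ, hψ⟩ := h2.2 ⟨W, W', h3, h5⟩
    exact ⟨ψ, fun g => DFunLike.congr_fun hψ g⟩
  · rintro ⟨ψ, hψ⟩
    obtain ⟨W, W', h3, h4⟩ := h2.1 ⟨ψ, MonoidHom.ext hψ⟩
    refine ⟨W, W', h3, (cmp_eq m _ _ _ _).2 ?_⟩
    rw [E_TW]
    exact h4

/-- The certificate of inequivalence. -/
def QQ (m : ℕ) (x : List (Wd m) × List (Wd m)) : Prop :=
  ∃ L : KL, ∃ L' : KL, ((L.length = m ∧ L'.length = m) ∧ (StarL L ∧ StarL L')) ∧ NCL (L, L') ∧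
    (∃ e : FN m ≃* FN m, ∀ g, E m x.1 (e g) = e (twF (kof m L) g)) ∧
    ∃ e : FN m ≃* FN m, ∀ g, E m x.2 (e g) = e (twF (kof m L') g)

theorem re_QQ (m : ℕ) : Re (QQ m) := by
  have hL : Primrec (fun y : ((List (Wd m) × List (Wd m)) × KL) × KL => y.1.2) := Primrec.snd.comp Primrec.fst
  have hL' : Primrec (fun y : ((List (Wd m) × List (Wd m)) × KL) × KL => y.2) := Primrec.snd
  have ha : Primrec (fun y : ((List (Wd m) × List (Wd m)) × KL) × KL => y.1.1.1) :=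
    Primrec.fst.comp (Primrec.fst.comp Primrec.fst)
  have hb : Primrec (fun y : ((List (Wd m) × List (Wd m)) × KL) × KL => y.1.1.2) :=
    Primrec.snd.comp (Primrec.fst.comp Primrec.fst)
  have h1 : Re (fun y : ((List (Wd m) × List (Wd m)) × KL) × KL => y.1.2.length = m ∧ y.2.length = m) := by
    apply re_prim
    exact PrimrecPred.and
      (PrimrecRel.comp Primrec.eq (Primrec.list_length.comp hL) (Primrec.const m))
      (PrimrecRel.comp Primrec.eq (Primrec.list_length.comp hL') (Primrec.const m))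
  have h2 : Re (fun y : ((List (Wd m) × List (Wd m)) × KL) × KL => StarL y.1.2 ∧ StarL y.2) :=
    re_and (re_comp re_StarL hL) (re_comp re_StarL hL')
  have h3 : Re (fun y : ((List (Wd m) × List (Wd m)) × KL) × KL => NCL (y.1.2, y.2)) :=
    re_comp re_NCL (Primrec.pair hL hL')
  have h4 := re_comp (re_MTL m) (Primrec.pair ha hL)
  have h5 := re_comp (re_MTL m) (Primrec.pair hb hL')
  exact re_ex (re_ex (re_and (re_and h1 h2) (re_and h3 (re_and h4 h5))))

/-- Multiple twists with respect to some basis. -/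
def IsMT (m : ℕ) (φ : FN m →* FN m) : Prop :=
  ∃ (e : FN m ≃* FN m) (k : Fin m → ℤ × ℤ), ∀ g, φ (e g) = e (twF k g)

theorem mt_star (m : ℕ) (φ : FN m →* FN m) (h : IsMT m φ) : ∃ L : KL, L.length = m ∧ StarL L ∧
    ∃ e : FN m ≃* FN m, ∀ g, φ (e g) = e (twF (kof m L) g) := by
  obtain ⟨e, k, he⟩ := h
  obtain ⟨L, h1, h2, h3⟩ := exists_starL m k
  obtain ⟨ψ, hψ⟩ := conj_of_Eq0 m k (kof m L) h3
  refine ⟨L, h1, h2, ψ.symm.trans e, ?_⟩
  intro g
  show φ (e (ψ.symm g)) = e (ψ.symm (twF (kof m L) g))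
  rw [he]
  congr 1
  rw [MulEquiv.eq_symm_apply, hψ, MulEquiv.apply_symm_apply]

theorem algorithm (m : ℕ) : ∃ D : List (Wd m) × List (Wd m) →. Bool, Partrec D ∧
    ∀ a b : List (Wd m), IsMT m (E m a) → IsMT m (E m b) →
      ∃ d ∈ D (a, b), (d = true ↔ ∃ ψ : FN m ≃* FN m, ∀ g, ψ (E m a g) = E m b (ψ g)) := by
  obtain ⟨D, hD, h⟩ := re_decide (re_conj m) (re_QQ m)
  refine ⟨D, hD, ?_⟩
  intro a b ha hb
  apply h (a, b)
  · obtain ⟨L, l1, s1, e, he⟩ := mt_star m _ ha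
    obtain ⟨L', l2, s2, e', he'⟩ := mt_star m _ hb
    by_cases hC : Crit (kof m L) (kof m L')
    · left
      obtain ⟨ψ, hψ⟩ := (conj_iff m _ _).2 hC
      refine ⟨(e.symm.trans ψ).trans e', ?_⟩
      intro g
      show e' (ψ (e.symm (E m a g))) = E m b (e' (ψ (e.symm g)))
      have h1 : e.symm (E m a g) = twF (kof m L) (e.symm g) := by
        rw [MulEquiv.symm_apply_eq, ← he, MulEquiv.apply_symm_apply]
      rw [h1, hψ, he']
    · right
      exact ⟨L, L', ⟨⟨l1, l2⟩, ⟨s1, s2⟩⟩, (NCL_iff m L L' l1 l2 s1 s2).2 hC, ⟨e, he⟩, ⟨e', he'⟩⟩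
  · rintro ⟨⟨ψ, hψ⟩, L, L', ⟨⟨l1, l2⟩, ⟨s1, s2⟩⟩, hN, ⟨e, he⟩, ⟨e', he'⟩⟩
    apply (NCL_iff m L L' l1 l2 s1 s2).1 hN
    apply (conj_iff m _ _).1
    refine ⟨(e.trans ψ).trans e'.symm, ?_⟩
    intro g
    show e'.symm (ψ (e (twF (kof m L) g))) = twF (kof m L') (e'.symm (ψ (e g)))
    rw [← he]
    have h1 : ψ (E m a (e g)) = E m b (ψ (e g)) := hψ (e g)
    rw [h1, MulEquiv.symm_apply_eq, ← he', MulEquiv.apply_symm_apply]

end Pool.Agent.H61.CT
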